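import Pool.Agent.TH405.J653C
set_option autoImplicit false
open Finset Pool.Agent.TH477.PA

namespace Pool.Agent.TH405.J653

theorem pow_le_sq (n : ℕ) : n ^ n ≤ (Nat.factorial n) ^ 2 := by
  have h1 : ∏ i ∈ range n, (i + 1) = Nat.factorial n := Finset.prod_range_add_one_eq_factorial n
  have h2 : ∏ i ∈ range n, (n - 1 - i + 1) = Nat.factorial n := by
    rw [← h1]; exact Finset.prod_range_reflect (fun i => i + 1) n
  calc n ^ n = ∏ _i ∈ range n, n := by rw [Finset.prod_const, Finset.card_range]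
    _ ≤ ∏ i ∈ range n, ((i + 1) * (n - 1 - i + 1)) := by
        refine Finset.prod_le_prod' fun i hi => ?_
        rw [Finset.mem_range] at hi
        obtain ⟨m, rfl⟩ : ∃ m, n = i + 1 + m := ⟨n - (i + 1), by omega⟩
        have : i + 1 + m - 1 - i + 1 = m + 1 := by omega
        rw [this]
        nlinarith
    _ = (Nat.factorial n) ^ 2 := by
        rw [Finset.prod_mul_distrib, h1, h2, sq]

theorem half_log_le (p : ℕ) (hp : 1 ≤ p) :
    (p : ℝ) / 2 * Real.log p ≤ Real.log (Nat.factorial p : ℝ) := by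
  have h : ((p : ℝ)) ^ p ≤ ((Nat.factorial p : ℕ) : ℝ) ^ 2 := by exact_mod_cast pow_le_sq p
  have hp' : (0 : ℝ) < p := by exact_mod_cast hp
  have h2 := Real.log_le_log (by positivity) h
  rw [Real.log_pow, Real.log_pow] at h2
  push_cast at h2
  linarith

theorem small_tail (x : ℝ) (hx0 : 0 < x) (hx1 : x < 1) (p L : ℕ) (hp : 0 < p) (hL : 0 < L) :
    ∃ n0 : ℕ, ∀ n, n0 ≤ n → (n : ℝ) * p * x ^ (n / (p * L)) ≤ 1 / 2 := by
  have h1 := tendsto_self_mul_const_pow_of_lt_one hx0.le hx1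
  have h2 := tendsto_pow_atTop_nhds_zero_of_lt_one hx0.le hx1
  have h3 : Filter.Tendsto (fun t : ℕ => ((p : ℝ) * L * p) * ((t : ℝ) * x ^ t + x ^ t))
      Filter.atTop (nhds (((p : ℝ) * L * p) * (0 + 0))) := (h1.add h2).const_mul _
  rw [add_zero, mul_zero] at h3
  have h4 := h3.eventually (ge_mem_nhds (show (0 : ℝ) < 1 / 2 by norm_num))
  rw [Filter.eventually_atTop] at h4
  obtain ⟨t0, ht0⟩ := h4
  refine ⟨p * L * t0, fun n hn => ?_⟩
  have hpL : 0 < p * L := Nat.mul_pos hp hL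
  have ht : t0 ≤ n / (p * L) := by
    rw [Nat.le_div_iff_mul_le hpL]; linarith
  have hb := ht0 _ ht
  refine le_trans ?_ hb
  have hn' : (n : ℝ) ≤ (p : ℝ) * L * ((n / (p * L) : ℕ) + 1) := by
    have : n < p * L * (n / (p * L) + 1) := Nat.lt_mul_div_succ n hpL
    exact_mod_cast this.le
  have hpow : 0 ≤ x ^ (n / (p * L)) := by positivity
  have hp' : (0 : ℝ) ≤ p := by positivity
  calc (n : ℝ) * p * x ^ (n / (p * L)) ≤
      ((p : ℝ) * L * ((n / (p * L) : ℕ) + 1)) * p * x ^ (n / (p * L)) := by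
        gcongr
    _ = (p : ℝ) * L * p * ((n / (p * L) : ℕ) * x ^ (n / (p * L)) + x ^ (n / (p * L))) := by ring

end Pool.Agent.TH405.J653

open Pool.Agent.TH405.J653 in
theorem Pool.Agent.TH405.J653.J14_lower_tie (k D r p c : ℕ) (hD : 1 ≤ D) (hc : 2 ≤ c) (hcr : c < r)
    (hp2 : 2 ≤ p) (hkp : k ≤ 2 * p) (hpc : p + c + D = k) :
    ∃ K : ℝ, 0 < K ∧ ∃ n0 : ℕ, ∀ n, n0 ≤ n →
    Real.exp ((Real.log r - (Real.log r - Real.log c) / p) * (n : ℝ) ^ 2 / 2 + K * n) ≤
      (F r k (k.choose 2 + 1 - D) (⊤ : SimpleGraph (Fin n)) : ℝ) := by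
  classical
  have hcp : c < p := by omega
  have hp : 0 < p := by omega
  have hr : 0 < r := by omega
  have hk : D ≤ k.choose 2 := by
    have h1 : k - 1 ≤ k.choose 2 := by
      obtain ⟨m, rfl⟩ : ∃ m, k = m + 2 := ⟨k - 2, by omega⟩
      have : (m + 2).choose 2 = (m + 1).choose 1 + (m + 1).choose 2 := by
        rw [show m + 2 = (m + 1) + 1 from rfl, Nat.choose_succ_succ' (m + 1) 1]
      rw [this, Nat.choose_one_right]; omega
    omega
  set a := Real.log p with ha
  set b := Real.log c with hb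
  set lr := Real.log r with hlr
  have hc0 : (0 : ℝ) < c := by exact_mod_cast (by omega : 0 < c)
  have hp0 : (0 : ℝ) < p := by exact_mod_cast hp
  have hr0 : (0 : ℝ) < r := by exact_mod_cast hr
  have hb0 : 0 < b := Real.log_pos (by exact_mod_cast (by omega : 1 < c))
  have hab : b < a := Real.log_lt_log hc0 (by exact_mod_cast hcp)
  have hbr : b < lr := Real.log_lt_log hc0 (by exact_mod_cast hcr)
  obtain ⟨L, hL⟩ := exists_nat_gt (2 * a / (a - b) + 1)
  have hab' : 0 < a - b := by linarith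
  have hL0 : 0 < L := by
    have h1 : (0 : ℝ) < 2 * a / (a - b) + 1 := by
      have : 0 < 2 * a / (a - b) := by apply div_pos <;> linarith
      linarith
    exact_mod_cast h1.trans hL
  have hL0' : (0 : ℝ) < L := by exact_mod_cast hL0
  have hLa : (a + b) / 2 ≤ (1 - 1 / L) * a := by
    have h1 : 2 * a / (a - b) ≤ L := by linarith
    rw [div_le_iff₀ hab'] at h1
    have h2 : a / L ≤ (a - b) / 2 := by
      rw [div_le_div_iff₀ hL0' (by norm_num)]
      linarith
    have h3 : (1 - 1 / (L : ℝ)) * a = a - a / L := by ring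
    rw [h3]; linarith
  obtain ⟨n1, hn1⟩ := small_tail ((c : ℝ) / r) (by positivity)
    (by rw [div_lt_one hr0]; exact_mod_cast hcr) p L hp hL0
  -- the constant
  set C0 : ℝ := p * (a + b) / 4 + p / 8 * (lr - b) + Real.log 2 with hC0
  obtain ⟨n2, hn2⟩ := exists_nat_gt (C0 / ((a - b) / 8))
  refine ⟨(a - b) / 8, by linarith, max n1 (max n2 1), fun n hn => ?_⟩
  have hnn1 : n1 ≤ n := (le_max_left _ _).trans hn
  have hnn2 : n2 ≤ n := (le_max_left _ _).trans ((le_max_right _ _).trans hn)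
  have hn1' : 1 ≤ n := (le_max_right _ _).trans ((le_max_right _ _).trans hn)
  set B := n / p with hB
  set t := n / (p * L) with ht
  have htB : t = B / L := by rw [ht, hB, Nat.div_div_eq_div_mul]
  have htB' : t ≤ B := by rw [htB]; exact Nat.div_le_self _ _
  set M := B - t with hM
  obtain ⟨A, hA⟩ : ∃ A : Finset (Fin r), A.card = c := by
    have : c ≤ (univ : Finset (Fin r)).card := by
      rw [Finset.card_univ, Fintype.card_fin]; omega
    obtain ⟨A, _, hA⟩ := Finset.exists_subset_card_eq this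
    exact ⟨A, hA⟩
  have hcore := core (n := n) (k := k) (D := D) (p := p) (c := c) (r := r) (t := t) hk hpc hr A hA
    (ι := Fin M → Equiv.Perm (Fin p)) (fun σ => kap hp t M σ) (fun j => Rf t j)
    (fun σ j u hu => kap_Rf hp t M σ j u hu) (fun j => Rf_card hp t htB' j)
    (fun σ σ' h => kap_ne hp t M (by omega) σ σ' h)
  have htail := hn1 n hnn1
  -- each summand
  set N : ℝ := (n : ℝ) ^ 2 / (2 * p) - n / 2 + p / 8 with hN
  set Ebar : ℝ := (n : ℝ) * (n - 1) / 2 with hEbar
  have hterm : ∀ σ : Fin M → Equiv.Perm (Fin p),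
      Real.exp (Ebar * lr - N * (lr - b)) ≤
      (c : ℝ) ^ nSame (kap (n := n) hp t M σ) * (r : ℝ) ^ (n.choose 2 - nSame (kap (n := n) hp t M σ)) := by
    intro σ
    have h1 := nSame_le (B := n / p) hp (kap (n := n) hp t M σ) (fun i => le_kap hp t M σ i)
      (fun i => kap_le hp t M σ i)
    have hle : nSame (kap (n := n) hp t M σ) ≤ n.choose 2 := by
      rw [nSame_def, ← card_E n]
      exact (Finset.card_le_univ _)
    have hc' : (c : ℝ) ^ nSame (kap (n := n) hp t M σ) =
        Real.exp (nSame (kap (n := n) hp t M σ) * b) := by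
      rw [hb, mul_comm, Real.exp_mul, Real.exp_log hc0, Real.rpow_natCast]
    have hr' : (r : ℝ) ^ (n.choose 2 - nSame (kap (n := n) hp t M σ)) =
        Real.exp (((n.choose 2 - nSame (kap (n := n) hp t M σ) : ℕ) : ℝ) * lr) := by
      rw [hlr, mul_comm, Real.exp_mul, Real.exp_log hr0, Real.rpow_natCast]
    rw [hc', hr', ← Real.exp_add, Real.exp_le_exp, Nat.cast_sub hle, Nat.cast_choose_two]
    have h2 : (nSame (kap (n := n) hp t M σ) : ℝ) * (lr - b) ≤ N * (lr - b) :=
      mul_le_mul_of_nonneg_right h1 (by linarith)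
    have h3 : (nSame (kap (n := n) hp t M σ) : ℝ) * b + (Ebar - nSame (kap (n := n) hp t M σ)) * lr =
      Ebar * lr - nSame (kap (n := n) hp t M σ) * (lr - b) := by ring
    rw [← hEbar, h3]
    linarith
  have hcount : Fintype.card (Fin M → Equiv.Perm (Fin p)) = (Nat.factorial p) ^ M := by
    rw [Fintype.card_fun, Fintype.card_perm, Fintype.card_fin, Fintype.card_fin]
  have hsum : ((Nat.factorial p : ℕ) : ℝ) ^ M * Real.exp (Ebar * lr - N * (lr - b)) ≤
      ∑ σ : Fin M → Equiv.Perm (Fin p), ((c : ℝ) ^ nSame (kap (n := n) hp t M σ) *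
        (r : ℝ) ^ (n.choose 2 - nSame (kap (n := n) hp t M σ))) := by
    have h1 : ∑ _σ : Fin M → Equiv.Perm (Fin p), Real.exp (Ebar * lr - N * (lr - b)) ≤
      ∑ σ : Fin M → Equiv.Perm (Fin p), ((c : ℝ) ^ nSame (kap (n := n) hp t M σ) *
        (r : ℝ) ^ (n.choose 2 - nSame (kap (n := n) hp t M σ))) :=
      Finset.sum_le_sum fun σ _ => hterm σ
    rw [Finset.sum_const, Finset.card_univ, hcount, nsmul_eq_mul] at h1
    push_cast at h1
    exact h1
  have hhalf : (1 : ℝ) / 2 ≤ 1 - n * p * ((c : ℝ) / r) ^ t := by linarith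
  have hF : ((Nat.factorial p : ℕ) : ℝ) ^ M * Real.exp (Ebar * lr - N * (lr - b)) * (1 / 2) ≤
      (F r k (k.choose 2 + 1 - D) (⊤ : SimpleGraph (Fin n)) : ℝ) := by
    refine le_trans ?_ hcore
    exact mul_le_mul hsum hhalf (by norm_num) (le_trans (by positivity) hsum)
  refine le_trans ?_ hF
  have hfac : ((Nat.factorial p : ℕ) : ℝ) ^ M = Real.exp (M * Real.log (Nat.factorial p : ℝ)) := by
    rw [mul_comm, Real.exp_mul, Real.exp_log (by exact_mod_cast Nat.factorial_pos p),
      Real.rpow_natCast]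
  have hhalf' : (1 : ℝ) / 2 = Real.exp (-Real.log 2) := by
    rw [Real.exp_neg, Real.exp_log (by norm_num)]; norm_num
  rw [hfac, hhalf', ← Real.exp_add, ← Real.exp_add, Real.exp_le_exp]
  -- real estimate
  have hMr : ((n : ℝ) - p) * (1 - 1 / L) / p ≤ M := by
    have h1 : (M : ℝ) = B - t := by rw [hM, Nat.cast_sub htB']
    have h2 : (t : ℝ) ≤ B / L := by rw [htB]; exact Nat.cast_div_le
    have h3 : (n : ℝ) / p - 1 ≤ B := by
      have h4 : n < p * (B + 1) := Nat.lt_mul_div_succ n hp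
      have h5 : (n : ℝ) < p * (B + 1) := by exact_mod_cast h4
      have h6 : (n : ℝ) / p < B + 1 := by rw [div_lt_iff₀ hp0]; linarith
      linarith
    have hL1 : 0 ≤ 1 - 1 / (L : ℝ) := by
      have : (1 : ℝ) / L ≤ 1 := by
        rw [div_le_one hL0']; exact_mod_cast hL0
      linarith
    calc ((n : ℝ) - p) * (1 - 1 / L) / p = ((n : ℝ) / p - 1) * (1 - 1 / L) := by
          field_simp
      _ ≤ B * (1 - 1 / L) := mul_le_mul_of_nonneg_right h3 hL1
      _ = B - B / L := by ring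
      _ ≤ M := by rw [h1]; linarith
  have hlogf := half_log_le p (by omega)
  rw [← ha] at hlogf
  have hMlog : ((n : ℝ) - p) * ((a + b) / 4) ≤ M * Real.log (Nat.factorial p : ℝ) := by
    have ha0 : 0 < a := by linarith
    by_cases hnp : (n : ℝ) < p
    · have h1 : ((n : ℝ) - p) * ((a + b) / 4) ≤ 0 := by
        apply mul_nonpos_of_nonpos_of_nonneg <;> linarith
      refine h1.trans ?_
      refine mul_nonneg (Nat.cast_nonneg _) (le_trans ?_ hlogf)
      positivity
    · have hnp' : 0 ≤ (n : ℝ) - p := by linarith [not_lt.mp hnp]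
      have hpa : 0 ≤ (p : ℝ) / 2 * a := by positivity
      calc ((n : ℝ) - p) * ((a + b) / 4) = ((n : ℝ) - p) / 2 * ((a + b) / 2) := by ring
        _ ≤ ((n : ℝ) - p) / 2 * ((1 - 1 / L) * a) :=
            mul_le_mul_of_nonneg_left hLa (by linarith)
        _ = ((n : ℝ) - p) * (1 - 1 / L) / p * (p / 2 * a) := by
            field_simp
        _ ≤ M * (p / 2 * a) := mul_le_mul_of_nonneg_right hMr hpa
        _ ≤ M * Real.log (Nat.factorial p : ℝ) :=
            mul_le_mul_of_nonneg_left hlogf (Nat.cast_nonneg _)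
  have hconst : C0 ≤ (a - b) / 8 * n := by
    have h1 : C0 / ((a - b) / 8) < n := lt_of_lt_of_le hn2 (by exact_mod_cast hnn2)
    rw [div_lt_iff₀ (by linarith)] at h1
    linarith
  have hmain : Ebar * lr - N * (lr - b) =
      (lr - (lr - b) / p) * (n : ℝ) ^ 2 / 2 - n * b / 2 - p / 8 * (lr - b) := by
    rw [hEbar, hN]
    field_simp
    ring
  rw [hmain]
  rw [hC0] at hconst
  linarith [hMlog, hconst]
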