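import Mathlib

/-!
Blocks without three-term progressions: `Bk k ⊆ [4 ^ k, 4 ^ k + 4 ^ k / 3)`.
-/

set_option autoImplicit false

namespace Pool.Agent.TH405

open Filter

lemma exists_block (k : ℕ) : ∃ s : Finset ℕ, (∀ c ∈ s, 4 ^ k ≤ c ∧ c < 4 ^ k + 4 ^ k / 3) ∧
    s.card = rothNumberNat (4 ^ k / 3) ∧ ThreeAPFree (s : Set ℕ) := by
  obtain ⟨t, ht, htc, htf⟩ := rothNumberNat_spec (4 ^ k / 3)
  refine ⟨t.map (addLeftEmbedding (4 ^ k)), ?_, ?_, ?_⟩
  · intro c hc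
    simp only [Finset.mem_map, addLeftEmbedding_apply] at hc
    obtain ⟨a, ha, rfl⟩ := hc
    have := Finset.mem_range.1 (ht ha)
    omega
  · rw [Finset.card_map, htc]
  · intro a ha b hb c hc habc
    simp only [Finset.coe_map, addLeftEmbedding_apply, Set.mem_image, Finset.mem_coe] at ha hb hc
    obtain ⟨a, ha, rfl⟩ := ha
    obtain ⟨b, hb, rfl⟩ := hb
    obtain ⟨c, hc, rfl⟩ := hc
    have := htf ha hb hc (by omega)
    omega

/-- The `k`-th block. -/
noncomputable def Bk (k : ℕ) : Finset ℕ := (exists_block k).choose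

lemma Bk_mem {k c : ℕ} (hc : c ∈ Bk k) : 4 ^ k ≤ c ∧ c < 4 ^ k + 4 ^ k / 3 :=
  (exists_block k).choose_spec.1 c hc

lemma Bk_card (k : ℕ) : (Bk k).card = rothNumberNat (4 ^ k / 3) :=
  (exists_block k).choose_spec.2.1

lemma Bk_free (k : ℕ) : ThreeAPFree (Bk k : Set ℕ) :=
  (exists_block k).choose_spec.2.2

lemma Bk_lt {k c : ℕ} (hc : c ∈ Bk k) : c < 4 ^ (k + 1) := by
  have := Bk_mem hc
  rw [pow_succ]
  have h3 : 4 ^ k / 3 ≤ 4 ^ k := Nat.div_le_self _ _
  have : 0 < 4 ^ k := by positivity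
  omega

lemma Bk_half {k l c d : ℕ} (hc : c ∈ Bk k) (hd : d ∈ Bk l) (h : l < k) : 2 * d < c := by
  have h1 := Bk_mem hc
  have h2 := Bk_mem hd
  have h3 : 4 ^ (l + 1) ≤ 4 ^ k := Nat.pow_le_pow_right (by norm_num) h
  rw [pow_succ] at h3
  omega

lemma Bk_uniq {k l c : ℕ} (hk : c ∈ Bk k) (hl : c ∈ Bk l) : k = l := by
  rcases lt_trichotomy k l with h | h | h
  · have := Bk_half hl hk h; omega
  · exact h
  · have := Bk_half hk hl h; omega

lemma Bk_mono {k l c d : ℕ} (hk : c ∈ Bk k) (hl : d ∈ Bk l) (h : c ≤ d) : k ≤ l := by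
  by_contra hlt
  have := Bk_half hk hl (by omega)
  omega

lemma union_free {k₁ k₂ k₃ a b c : ℕ} (ha : a ∈ Bk k₁) (hb : b ∈ Bk k₂) (hc : c ∈ Bk k₃)
    (h : a + b = c + c) : a = b := by
  wlog hab : a ≤ b generalizing a b k₁ k₂ with H
  · exact (H hb ha (by omega) (by omega)).symm
  have hcb : c ≤ b := by omega
  have hac : a ≤ c := by omega
  have e1 : k₃ = k₂ := by
    apply le_antisymm (Bk_mono hc hb hcb)
    by_contra hlt
    have := Bk_half hb hc (by omega)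
    omega
  subst e1
  have e2 : k₁ = k₃ := by
    apply le_antisymm (Bk_mono ha hc hac)
    by_contra hlt
    have h1 := Bk_mem ha
    have h2 := Bk_mem hb
    have h3 := Bk_mem hc
    have h4 : 4 ^ (k₁ + 1) ≤ 4 ^ k₃ := Nat.pow_le_pow_right (by norm_num) (by omega)
    rw [pow_succ] at h4
    omega
  subst e2
  have := Bk_free k₁ ha hc hb (by simpa using h)
  omega

lemma roth_ev {ε : ℝ} (hε : 0 < ε) :
    ∀ᶠ n : ℕ in atTop, (n : ℝ) ^ (1 - ε) ≤ rothNumberNat n := by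
  have h1 : Tendsto (fun n : ℕ => Real.log n) atTop atTop :=
    Real.tendsto_log_atTop.comp tendsto_natCast_atTop_atTop
  filter_upwards [h1.eventually_ge_atTop (16 / ε ^ 2), eventually_ge_atTop 1] with n hn hn1
  have hn0 : (0 : ℝ) < n := by exact_mod_cast hn1
  have hlog : 0 < Real.log n := lt_of_lt_of_le (by positivity) hn
  have h2 : 4 * Real.sqrt (Real.log n) ≤ ε * Real.log n := by
    have h3 : 4 ≤ ε * Real.sqrt (Real.log n) := by
      have h4 : 4 / ε ≤ Real.sqrt (Real.log n) := by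
        apply Real.le_sqrt_of_sq_le
        have : (4 / ε) ^ 2 = 16 / ε ^ 2 := by field_simp; norm_num
        rw [this]; exact hn
      rw [div_le_iff₀ hε] at h4
      linarith
    have h5 := mul_le_mul_of_nonneg_right h3 (Real.sqrt_nonneg (Real.log n))
    rw [mul_assoc, Real.mul_self_sqrt hlog.le] at h5
    exact h5
  refine le_trans ?_ (Behrend.roth_lower_bound (N := n))
  rw [show (1 : ℝ) - ε = 1 + (-ε) by ring, Real.rpow_add hn0, Real.rpow_one]
  apply mul_le_mul_of_nonneg_left _ hn0.le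
  rw [Real.rpow_def_of_pos hn0]
  apply Real.exp_le_exp.2
  linarith

lemma Bk_ev {ε : ℝ} (hε : 0 < ε) (hε1 : ε < 1) :
    ∀ᶠ k : ℕ in atTop, (4 : ℝ) ^ ((k : ℝ) * (1 - ε)) ≤ ((Bk k).card : ℝ) := by
  have h1 : Tendsto (fun k : ℕ => 4 ^ k / 3) atTop atTop := by
    apply tendsto_atTop_mono (f := fun k : ℕ => k - 1)
    · intro k
      rcases Nat.eq_zero_or_pos k with rfl | hk
      · simp
      obtain ⟨m, rfl⟩ : ∃ m, k = m + 1 := ⟨k - 1, by omega⟩
      rw [pow_succ]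
      have : m < 4 ^ m := Nat.lt_pow_self (by norm_num)
      simp only [Nat.add_sub_cancel]
      omega
    · exact tendsto_sub_atTop_nat 1
  have h2 := h1.eventually (roth_ev (half_pos hε))
  have h3 : ∀ᶠ k : ℕ in atTop, (2 : ℝ) / ε ≤ k := by
    exact (tendsto_natCast_atTop_atTop (R := ℝ)).eventually_ge_atTop _
  filter_upwards [h2, h3, eventually_ge_atTop 1] with k hk hk2 hk1
  rw [Bk_card]
  refine le_trans ?_ hk
  obtain ⟨m, rfl⟩ : ∃ m, k = m + 1 := ⟨k - 1, by omega⟩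
  have h4 : (4 : ℝ) ^ m ≤ ((4 ^ (m + 1) / 3 : ℕ) : ℝ) := by
    have : 4 ^ m ≤ 4 ^ (m + 1) / 3 := by rw [pow_succ]; omega
    exact_mod_cast this
  have h5 : ((4 : ℝ) ^ m) ^ (1 - ε / 2) ≤ ((4 ^ (m + 1) / 3 : ℕ) : ℝ) ^ (1 - ε / 2) :=
    Real.rpow_le_rpow (by positivity) h4 (by linarith)
  refine le_trans ?_ h5
  rw [← Real.rpow_natCast, ← Real.rpow_mul (by norm_num)]
  apply Real.rpow_le_rpow_of_exponent_le (by norm_num)
  push_cast at hk2 ⊢
  rw [div_le_iff₀ hε] at hk2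
  nlinarith

end Pool.Agent.TH405
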