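import Mathlib
import Pool.Agent.TH405.Behr

/-!
The parameters: in block `k` one element is picked out of each of `Mk k` groups of size `sk k`.
-/

set_option autoImplicit false

namespace Pool.Agent.TH405

open Filter Finset

section

variable (h q : ℕ)

noncomputable def gam : ℝ := ((h : ℝ) + q - 1) / ((h : ℝ) * (q + 1) - 1)

noncomputable def alp : ℝ := (((h : ℝ) - 1) * q) / ((h : ℝ) * (q + 1) - 1)

def nk (k : ℕ) : ℕ := 4 ^ (k + 1)

noncomputable def Hs (k : ℕ) : ℝ := ∑ t ∈ Finset.Icc 1 (nk k), (t : ℝ)⁻¹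

noncomputable def Zc : ℝ := ∑' k : ℕ, 1 / ((k : ℝ) + 1) ^ 2

noncomputable def Qk (k : ℕ) : ℝ := 24 * (Zc + 1) * ((k : ℝ) + 1) ^ 2 * (Hs k) ^ (h + q)

noncomputable def uk (k : ℕ) : ℝ := ((Bk k).card : ℝ) / ((nk k : ℝ) * Qk h q k)

noncomputable def sk (k : ℕ) : ℕ := ⌈(nk k : ℝ) ^ (gam h q) / uk h q k⌉₊ + 1

noncomputable def Mk (k : ℕ) : ℕ := (Bk k).card / sk h q k

noncomputable def Lk (k : ℕ) : ℝ := ((Bk k).card : ℝ) * uk h q k / (3 * (nk k : ℝ) ^ (gam h q))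

end

lemma nk_pos (k : ℕ) : (0 : ℝ) < nk k := by unfold nk; positivity

lemma one_le_nk (k : ℕ) : (1 : ℝ) ≤ nk k := by
  unfold nk
  exact_mod_cast Nat.one_le_pow _ _ (by norm_num)

lemma Zc_summable : Summable (fun k : ℕ => 1 / ((k : ℝ) + 1) ^ 2) := by
  have := (summable_nat_add_iff 1).2 (Real.summable_one_div_nat_pow.2 (by norm_num : 1 < 2))
  simpa using this

lemma Zc_nonneg : 0 ≤ Zc := tsum_nonneg fun k => by positivity

lemma one_le_Hs (k : ℕ) : 1 ≤ Hs k := by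
  unfold Hs
  have h1 : (1 : ℕ) ∈ Finset.Icc 1 (nk k) := by
    rw [Finset.mem_Icc]
    refine ⟨le_rfl, ?_⟩
    unfold nk
    exact Nat.one_le_pow _ _ (by norm_num)
  have := Finset.single_le_sum (f := fun t : ℕ => (t : ℝ)⁻¹) (s := Finset.Icc 1 (nk k))
    (fun i _ => by positivity) h1
  simpa using this

lemma Hs_le (k : ℕ) : Hs k ≤ 3 * ((k : ℝ) + 1) := by
  have h1 : Hs k = (harmonic (nk k) : ℝ) := by
    unfold Hs
    rw [harmonic_eq_sum_Icc]
    push_cast
    rfl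
  rw [h1]
  refine (harmonic_le_one_add_log (nk k)).trans ?_
  unfold nk
  push_cast
  rw [Real.log_pow]
  have h4 : Real.log 4 < 2 := by
    have : Real.log 4 = 2 * Real.log 2 := by
      rw [show (4 : ℝ) = 2 ^ 2 by norm_num, Real.log_pow]; norm_num
    rw [this]
    have := Real.log_two_lt_d9
    linarith
  push_cast
  have hk : (0 : ℝ) ≤ k := Nat.cast_nonneg k
  nlinarith

lemma one_le_Qk (h q k : ℕ) : 1 ≤ Qk h q k := by
  unfold Qk
  have h1 := one_le_Hs k
  have h2 := Zc_nonneg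
  have h3 : (1 : ℝ) ≤ (Hs k) ^ (h + q) := one_le_pow₀ h1
  have h4 : (1 : ℝ) ≤ ((k : ℝ) + 1) ^ 2 := one_le_pow₀ (by
    have : (0 : ℝ) ≤ k := Nat.cast_nonneg k
    linarith)
  have h5 : (1 : ℝ) ≤ 24 * (Zc + 1) := by linarith
  calc (1 : ℝ) = 1 * 1 * 1 := by norm_num
    _ ≤ 24 * (Zc + 1) * ((k : ℝ) + 1) ^ 2 * (Hs k) ^ (h + q) := by gcongr

lemma uk_nonneg (h q k : ℕ) : 0 ≤ uk h q k := by
  unfold uk
  have := one_le_Qk h q k
  have := nk_pos k
  positivity

lemma card_le_nk (k : ℕ) : ((Bk k).card : ℝ) ≤ nk k := by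
  have : Bk k ⊆ Finset.range (nk k) := by
    intro c hc
    exact Finset.mem_range.2 (Bk_lt hc)
  have := Finset.card_le_card this
  rw [Finset.card_range] at this
  exact_mod_cast this

lemma uk_le_one (h q k : ℕ) : uk h q k ≤ 1 := by
  unfold uk
  have h1 := one_le_Qk h q k
  have h2 := nk_pos k
  rw [div_le_one (by positivity)]
  calc ((Bk k).card : ℝ) ≤ nk k := card_le_nk k
    _ ≤ (nk k : ℝ) * Qk h q k := le_mul_of_one_le_right h2.le h1

lemma sk_pos (h q k : ℕ) : 0 < sk h q k := Nat.succ_pos _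

lemma gam_nonneg (h q : ℕ) (hh : 2 ≤ h) : 0 ≤ gam h q := by
  unfold gam
  have : (2 : ℝ) ≤ h := by exact_mod_cast hh
  have hq : (0 : ℝ) ≤ q := Nat.cast_nonneg q
  apply div_nonneg
  · linarith
  · nlinarith

lemma gam_add_alp (h q : ℕ) (hh : 2 ≤ h) : gam h q + alp h q = 1 := by
  unfold gam alp
  have : (2 : ℝ) ≤ h := by exact_mod_cast hh
  have hq : (0 : ℝ) ≤ q := Nat.cast_nonneg q
  have h0 : (0 : ℝ) < (h : ℝ) * (q + 1) - 1 := by nlinarith
  field_simp
  ring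

lemma alp_pos (h q : ℕ) (hh : 2 ≤ h) (hq : 1 ≤ q) : 0 < alp h q := by
  unfold alp
  have : (2 : ℝ) ≤ h := by exact_mod_cast hh
  have hq : (1 : ℝ) ≤ q := by exact_mod_cast hq
  have h0 : (0 : ℝ) < (h : ℝ) * (q + 1) - 1 := by nlinarith
  apply div_pos _ h0
  apply mul_pos <;> linarith

/-- the probability of an element -/
lemma inv_sk (h q : ℕ) (hh : 2 ≤ h) {k c : ℕ} (hc : c ∈ Bk k) :
    ((sk h q k : ℝ))⁻¹ ≤ uk h q k * (c : ℝ) ^ (-gam h q) := by
  have hb : (0 : ℝ) < (Bk k).card := by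
    exact_mod_cast Finset.card_pos.2 ⟨c, hc⟩
  have h1 := one_le_Qk h q k
  have h2 := nk_pos k
  have hu : 0 < uk h q k := by unfold uk; positivity
  have hc1 : 1 ≤ c := le_trans (Nat.one_le_pow _ _ (by norm_num)) (Bk_mem hc).1
  have hc0 : (0 : ℝ) < c := by exact_mod_cast hc1
  have hcn : (c : ℝ) ≤ nk k := by exact_mod_cast (Bk_lt hc).le
  have hs : (nk k : ℝ) ^ (gam h q) / uk h q k ≤ sk h q k := by
    unfold sk
    push_cast
    exact (Nat.le_ceil _).trans (by linarith)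
  have hpos : 0 < (nk k : ℝ) ^ (gam h q) / uk h q k := by positivity
  calc ((sk h q k : ℝ))⁻¹ ≤ ((nk k : ℝ) ^ (gam h q) / uk h q k)⁻¹ :=
        inv_anti₀ hpos hs
    _ = uk h q k * ((nk k : ℝ) ^ (gam h q))⁻¹ := by rw [inv_div, div_eq_mul_inv]
    _ ≤ uk h q k * (c : ℝ) ^ (-gam h q) := by
        apply mul_le_mul_of_nonneg_left _ hu.le
        rw [Real.rpow_neg hc0.le]
        apply inv_anti₀ (by positivity)
        exact Real.rpow_le_rpow hc0.le hcn (gam_nonneg h q hh)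

lemma Mk_ge (h q : ℕ) (hh : 2 ≤ h) {k : ℕ} (hL : 2 ≤ Lk h q k) :
    Lk h q k / 2 ≤ Mk h q k := by
  have h1 := one_le_Qk h q k
  have h2 := nk_pos k
  have hb : (0 : ℝ) < (Bk k).card := by
    by_contra hcon
    have h0 : ((Bk k).card : ℝ) = 0 := le_antisymm (not_lt.1 hcon) (Nat.cast_nonneg _)
    unfold Lk at hL
    rw [h0] at hL
    norm_num at hL
  have hu : 0 < uk h q k := by unfold uk; positivity
  have hn1 : (1 : ℝ) ≤ (nk k : ℝ) ^ (gam h q) :=
    Real.one_le_rpow (one_le_nk k) (gam_nonneg h q hh)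
  have hge1 : 1 ≤ (nk k : ℝ) ^ (gam h q) / uk h q k := by
    rw [one_le_div hu]
    exact (uk_le_one h q k).trans hn1
  have hs : (sk h q k : ℝ) ≤ 3 * ((nk k : ℝ) ^ (gam h q) / uk h q k) := by
    unfold sk
    push_cast
    have := (Nat.ceil_lt_add_one (a := (nk k : ℝ) ^ (gam h q) / uk h q k) (by positivity)).le
    linarith
  have hs0 : (0 : ℝ) < sk h q k := by exact_mod_cast sk_pos h q k
  have hL2 : Lk h q k ≤ ((Bk k).card : ℝ) / sk h q k := by
    unfold Lk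
    rw [div_le_div_iff₀ (by positivity) hs0]
    have := mul_le_mul_of_nonneg_left hs (mul_nonneg hb.le hu.le)
    refine this.trans (le_of_eq ?_)
    field_simp
  have hM : ((Bk k).card : ℝ) / sk h q k ≤ Mk h q k + 1 := by
    rw [div_le_iff₀ hs0]
    unfold Mk
    have := Nat.div_add_mod (Bk k).card (sk h q k)
    have h3 := Nat.mod_lt (Bk k).card (sk_pos h q k)
    have h4 : (Bk k).card ≤ ((Bk k).card / sk h q k + 1) * sk h q k := by
      rw [add_mul, one_mul, mul_comm]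
      omega
    exact_mod_cast h4
  linarith

/-- the expected number of configurations against `Lk` -/
lemma Ek_le (h q : ℕ) (hh : 2 ≤ h) {k : ℕ} (hL : 2 ≤ Lk h q k) :
    (2 / (Mk h q k : ℝ)) * ((uk h q k) ^ 2 * (nk k : ℝ) ^ (alp h q) * (Hs k) ^ (h + q)) ≤
      (1 / 2) * (Zc + 1)⁻¹ * (1 / ((k : ℝ) + 1) ^ 2) := by
  have h1 := one_le_Qk h q k
  have h2 := nk_pos k
  have hb : (0 : ℝ) < (Bk k).card := by
    by_contra hcon
    have h0 : ((Bk k).card : ℝ) = 0 := le_antisymm (not_lt.1 hcon) (Nat.cast_nonneg _)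
    unfold Lk at hL
    rw [h0] at hL
    norm_num at hL
  have hu : 0 < uk h q k := by unfold uk; positivity
  have hH := one_le_Hs k
  have hM := Mk_ge h q hh hL
  have hL0 : 0 < Lk h q k := by linarith
  have h3 : 2 / (Mk h q k : ℝ) ≤ 4 / Lk h q k := by
    rw [div_le_div_iff₀ (by linarith) hL0]
    linarith
  have hZ := Zc_nonneg
  calc (2 / (Mk h q k : ℝ)) * ((uk h q k) ^ 2 * (nk k : ℝ) ^ (alp h q) * (Hs k) ^ (h + q))
      ≤ (4 / Lk h q k) * ((uk h q k) ^ 2 * (nk k : ℝ) ^ (alp h q) * (Hs k) ^ (h + q)) := by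
        apply mul_le_mul_of_nonneg_right h3
        positivity
    _ = 12 * uk h q k * ((nk k : ℝ) ^ (gam h q) * (nk k : ℝ) ^ (alp h q)) *
          (Hs k) ^ (h + q) / (Bk k).card := by
        unfold Lk
        field_simp
        ring
    _ = 12 * (Hs k) ^ (h + q) / Qk h q k := by
        rw [← Real.rpow_add h2, gam_add_alp h q hh, Real.rpow_one]
        unfold uk
        field_simp
    _ = (1 / 2) * (Zc + 1)⁻¹ * (1 / ((k : ℝ) + 1) ^ 2) := by
        unfold Qk
        have : (0 : ℝ) < (k : ℝ) + 1 := by positivity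
        have h5 : (0 : ℝ) < Zc + 1 := by linarith
        have h6 : (0 : ℝ) < Hs k := by linarith
        field_simp
        norm_num
    _ ≤ _ := le_rfl

end Pool.Agent.TH405
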