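import Mathlib
import Pool.Agent.TH405.Par

/-!
`Lk k` is at least `4 * (4 ^ (k + 2)) ^ (α - ε)` for all large `k`.
-/

set_option autoImplicit false

namespace Pool.Agent.TH405

open Filter Finset

lemma poly_exp (m : ℕ) (C : ℝ) {r : ℝ} (hr : 1 < r) :
    ∀ᶠ k : ℕ in atTop, C * ((k : ℝ) + 1) ^ m ≤ r ^ k := by
  have h1 := (tendsto_pow_const_div_const_pow_of_one_lt m hr)
  have h2 := h1.comp (tendsto_add_atTop_nat 1)
  have h3 : ∀ᶠ k : ℕ in atTop, ((k + 1 : ℕ) : ℝ) ^ m / r ^ (k + 1) < 1 / ((|C| + 1) * r) :=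
    h2.eventually_lt_const (by positivity)
  filter_upwards [h3] with k hk
  have hr0 : 0 < r := by linarith
  rw [div_lt_div_iff₀ (by positivity) (by positivity), one_mul] at hk
  push_cast at hk
  have hk' : (|C| + 1) * ((k : ℝ) + 1) ^ m * r < r ^ k * r := by
    calc (|C| + 1) * ((k : ℝ) + 1) ^ m * r = ((k : ℝ) + 1) ^ m * ((|C| + 1) * r) := by ring
      _ < r ^ (k + 1) := hk
      _ = r ^ k * r := pow_succ _ _
  have hk'' := lt_of_mul_lt_mul_right hk' hr0.le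
  refine le_trans ?_ hk''.le
  apply mul_le_mul_of_nonneg_right _ (by positivity)
  linarith [le_abs_self C]

lemma Lk_ev (h q : ℕ) (hh : 2 ≤ h) {ε : ℝ} (hε : 0 < ε) (hεa : ε < alp h q) :
    ∀ᶠ k : ℕ in atTop, 4 * (4 : ℝ) ^ (((k : ℝ) + 2) * (alp h q - ε)) ≤ Lk h q k := by
  have hsum := gam_add_alp h q hh
  have hg := gam_nonneg h q hh
  have hα1 : alp h q ≤ 1 := by linarith
  have hg1 : gam h q ≤ 1 := by linarith
  have hZ := Zc_nonneg
  have hr : (1 : ℝ) < (4 : ℝ) ^ (ε / 2) := Real.one_lt_rpow (by norm_num) (by linarith)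
  have h1 := poly_exp (h + q + 2) (12 * 4 ^ 4 * (24 * (Zc + 1) * 3 ^ (h + q))) hr
  have h2 := Bk_ev (ε := ε / 4) (by linarith) (by linarith)
  filter_upwards [h1, h2] with k hk1 hk2
  have hk0 : (0 : ℝ) ≤ k := Nat.cast_nonneg k
  have hQ : Qk h q k ≤ 24 * (Zc + 1) * 3 ^ (h + q) * ((k : ℝ) + 1) ^ (h + q + 2) := by
    unfold Qk
    have h3 : (Hs k) ^ (h + q) ≤ (3 * ((k : ℝ) + 1)) ^ (h + q) :=
      pow_le_pow_left₀ (by linarith [one_le_Hs k]) (Hs_le k) _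
    calc 24 * (Zc + 1) * ((k : ℝ) + 1) ^ 2 * (Hs k) ^ (h + q)
        ≤ 24 * (Zc + 1) * ((k : ℝ) + 1) ^ 2 * (3 * ((k : ℝ) + 1)) ^ (h + q) := by gcongr
      _ = _ := by rw [mul_pow]; ring
  have hQ1 := one_le_Qk h q k
  have hn : (0 : ℝ) < nk k := nk_pos k
  have hne : (nk k : ℝ) = (4 : ℝ) ^ ((k : ℝ) + 1) := by
    unfold nk
    push_cast
    rw [← Real.rpow_natCast]
    push_cast
    rfl
  have hL : Lk h q k = ((Bk k).card : ℝ) ^ 2 / (3 * (nk k : ℝ) ^ (1 + gam h q) * Qk h q k) := by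
    unfold Lk uk
    rw [Real.rpow_add hn, Real.rpow_one]
    field_simp
  rw [hL, le_div_iff₀ (by positivity)]
  have hsq : ((4 : ℝ) ^ ((k : ℝ) * (1 - ε / 4))) ^ 2 ≤ ((Bk k).card : ℝ) ^ 2 :=
    pow_le_pow_left₀ (by positivity) hk2 2
  refine le_trans ?_ hsq
  rw [← Real.rpow_natCast, ← Real.rpow_mul (by norm_num)]
  have hk3 : (12 * 4 ^ 4 * Qk h q k) ≤ (4 : ℝ) ^ (k * (ε / 2)) := by
    refine le_trans ?_ (hk1.trans (le_of_eq ?_))
    · calc 12 * 4 ^ 4 * Qk h q k ≤ 12 * 4 ^ 4 *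
            (24 * (Zc + 1) * 3 ^ (h + q) * ((k : ℝ) + 1) ^ (h + q + 2)) := by gcongr
        _ = _ := by ring
    · rw [← Real.rpow_natCast, ← Real.rpow_mul (by norm_num)]
      congr 1
      ring
  calc 4 * (4 : ℝ) ^ (((k : ℝ) + 2) * (alp h q - ε)) *
        (3 * (nk k : ℝ) ^ (1 + gam h q) * Qk h q k)
      = ((4 : ℝ) ^ (((k : ℝ) + 2) * (alp h q - ε)) * (4 : ℝ) ^ (((k : ℝ) + 1) * (1 + gam h q)))
          * (12 * Qk h q k) := by
        rw [hne, ← Real.rpow_mul (by norm_num)]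
        ring
    _ = (4 : ℝ) ^ (((k : ℝ) + 2) * (alp h q - ε) + ((k : ℝ) + 1) * (1 + gam h q))
          * (12 * Qk h q k) := by
        rw [← Real.rpow_add (by norm_num)]
    _ ≤ (4 : ℝ) ^ ((k : ℝ) * (2 - ε) + 4) * (12 * Qk h q k) := by
        apply mul_le_mul_of_nonneg_right _ (by positivity)
        apply Real.rpow_le_rpow_of_exponent_le (by norm_num)
        have : ((k : ℝ) + 2) * (alp h q - ε) + ((k : ℝ) + 1) * (1 + gam h q)
            = (k : ℝ) * (2 - ε) + k * (gam h q + alp h q - 1) + (2 * (alp h q - ε) + 1 + gam h q) := by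
          ring
        rw [this, hsum]
        nlinarith
    _ = (4 : ℝ) ^ ((k : ℝ) * (2 - ε)) * (12 * 4 ^ 4 * Qk h q k) := by
        rw [Real.rpow_add (by norm_num)]
        norm_num
        ring
    _ ≤ (4 : ℝ) ^ ((k : ℝ) * (2 - ε)) * (4 : ℝ) ^ (k * (ε / 2)) := by
        apply mul_le_mul_of_nonneg_left hk3 (by positivity)
    _ = (4 : ℝ) ^ ((k : ℝ) * (1 - ε / 4) * (2 : ℕ)) := by
        rw [← Real.rpow_add (by norm_num)]
        congr 1
        push_cast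
        ring

lemma Lk_ge_two (h q : ℕ) (hh : 2 ≤ h) (hq : 1 ≤ q) : ∀ᶠ k : ℕ in atTop, 2 ≤ Lk h q k := by
  have ha := alp_pos h q hh hq
  filter_upwards [Lk_ev h q hh (half_pos ha) (by linarith)] with k hk
  refine le_trans ?_ hk
  have : (1 : ℝ) ≤ (4 : ℝ) ^ (((k : ℝ) + 2) * (alp h q - alp h q / 2)) := by
    apply Real.one_le_rpow (by norm_num)
    have : (0 : ℝ) ≤ k := Nat.cast_nonneg k
    apply mul_nonneg <;> linarith
  linarith

end Pool.Agent.TH405
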