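import Mathlib

/-!
The weights of the configurations `(x, y)`: the cells are `x i` and `x i + y j`.
-/

set_option autoImplicit false

namespace Pool.Agent.TH405

open Finset

lemma cell_bound {a b : ℝ} (ha : 0 ≤ a) (hb : 0 ≤ b) {c x y : ℕ} (hx : 1 ≤ x) (hy : 1 ≤ y)
    (hxc : x ≤ c) (hyc : y ≤ c) :
    (c : ℝ) ^ (-(a + b)) ≤ (x : ℝ) ^ (-a) * (y : ℝ) ^ (-b) := by
  have hx' : (0 : ℝ) < x := by exact_mod_cast hx
  have hy' : (0 : ℝ) < y := by exact_mod_cast hy
  have hxc' : (x : ℝ) ≤ c := by exact_mod_cast hxc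
  have hyc' : (y : ℝ) ≤ c := by exact_mod_cast hyc
  have hc' : (0 : ℝ) < c := hx'.trans_le hxc'
  rw [neg_add, Real.rpow_add hc']
  apply mul_le_mul
  · exact Real.rpow_le_rpow_of_nonpos hx' hxc' (by linarith)
  · exact Real.rpow_le_rpow_of_nonpos hy' hyc' (by linarith)
  · positivity
  · positivity

/-- The product over the cells. -/
lemma weight_bound (h q : ℕ) (hh : 1 ≤ h) (hq : 1 ≤ q) (hhq : 1 < h * (q + 1)) (n : ℕ)
    (x : Fin h → ℕ) (y : Fin q → ℕ) (hx : ∀ i, 1 ≤ x i) (hy : ∀ j, 1 ≤ y j)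
    (hyn : ∀ j, y j ≤ n) :
    (∏ i, (x i : ℝ) ^ (-(((h : ℝ) + q - 1) / ((h : ℝ) * (q + 1) - 1)))) *
      ∏ i, ∏ j, ((x i + y j : ℕ) : ℝ) ^ (-(((h : ℝ) + q - 1) / ((h : ℝ) * (q + 1) - 1))) ≤
    (n : ℝ) ^ ((((h : ℝ) - 1) * q) / ((h : ℝ) * (q + 1) - 1)) *
      ((∏ i, (x i : ℝ)⁻¹) * ∏ j, (y j : ℝ)⁻¹) := by
  set d : ℝ := (h : ℝ) * (q + 1) - 1 with hd
  have hd0 : 0 < d := by
    have : (1 : ℝ) < (h : ℝ) * (q + 1) := by exact_mod_cast hhq
    linarith
  set a : ℝ := ((h : ℝ) - 1) / d with ha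
  set b : ℝ := (q : ℝ) / d with hb
  have hh' : (1 : ℝ) ≤ h := by exact_mod_cast hh
  have hq' : (1 : ℝ) ≤ q := by exact_mod_cast hq
  have ha0 : 0 ≤ a := div_nonneg (by linarith) hd0.le
  have hb0 : 0 ≤ b := div_nonneg (by linarith) hd0.le
  have hγ : ((h : ℝ) + q - 1) / d = a + b := by
    rw [ha, hb]; field_simp; ring
  rw [hγ]
  have e1 : (a + b) + q * a = 1 := by
    rw [ha, hb]; field_simp; rw [hd]; ring
  have e2 : h * b + a = 1 := by
    rw [ha, hb]; field_simp; rw [hd]; ring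
  have e3 : (((h : ℝ) - 1) * q) / d = q * a := by
    rw [ha]; field_simp
  rw [e3]
  have hxp : ∀ i, (0 : ℝ) < x i := fun i => by exact_mod_cast hx i
  have hyp : ∀ j, (0 : ℝ) < y j := fun j => by exact_mod_cast hy j
  calc (∏ i, (x i : ℝ) ^ (-(a + b))) * ∏ i, ∏ j, ((x i + y j : ℕ) : ℝ) ^ (-(a + b))
      ≤ (∏ i, (x i : ℝ) ^ (-(a + b))) * ∏ i, ∏ j, ((x i : ℝ) ^ (-a) * (y j : ℝ) ^ (-b)) := by
        apply mul_le_mul_of_nonneg_left
        · apply Finset.prod_le_prod
          · intro i _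
            apply Finset.prod_nonneg
            intro j _
            positivity
          · intro i _
            apply Finset.prod_le_prod
            · intro j _; positivity
            · intro j _
              exact cell_bound ha0 hb0 (hx i) (hy j) (Nat.le_add_right _ _)
                (Nat.le_add_left _ _)
        · apply Finset.prod_nonneg
          intro i _
          positivity
    _ = (∏ i, (x i : ℝ)⁻¹) * ∏ j, ((y j : ℝ) ^ a * (y j : ℝ)⁻¹) := by
        have h1 : ∀ i, ∏ j : Fin q, ((x i : ℝ) ^ (-a) * (y j : ℝ) ^ (-b)) =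
            (x i : ℝ) ^ (-(q * a)) * ∏ j : Fin q, (y j : ℝ) ^ (-b) := by
          intro i
          rw [Finset.prod_mul_distrib, Finset.prod_const, Finset.card_univ, Fintype.card_fin,
            ← Real.rpow_natCast, ← Real.rpow_mul (hxp i).le]
          congr 2
          ring
        simp_rw [h1]
        rw [Finset.prod_mul_distrib, ← mul_assoc, ← Finset.prod_mul_distrib]
        congr 1
        · apply Finset.prod_congr rfl
          intro i _
          rw [← Real.rpow_add (hxp i), ← Real.rpow_neg_one]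
          congr 1
          linarith
        · rw [Finset.prod_const, Finset.card_univ, Fintype.card_fin, ← Finset.prod_pow]
          apply Finset.prod_congr rfl
          intro j _
          rw [← Real.rpow_natCast, ← Real.rpow_mul (hyp j).le, ← Real.rpow_neg_one (y j : ℝ),
            ← Real.rpow_add (hyp j)]
          congr 1
          linarith
    _ ≤ (∏ i, (x i : ℝ)⁻¹) * ∏ j, ((n : ℝ) ^ a * (y j : ℝ)⁻¹) := by
        apply mul_le_mul_of_nonneg_left
        · apply Finset.prod_le_prod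
          · intro j _; have := hyp j; positivity
          · intro j _
            apply mul_le_mul_of_nonneg_right
            · exact Real.rpow_le_rpow (hyp j).le (by exact_mod_cast hyn j) ha0
            · have := hyp j; positivity
        · apply Finset.prod_nonneg
          intro i _; have := hxp i; positivity
    _ = (n : ℝ) ^ (q * a) * ((∏ i, (x i : ℝ)⁻¹) * ∏ j, (y j : ℝ)⁻¹) := by
        rw [Finset.prod_mul_distrib, Finset.prod_const, Finset.card_univ, Fintype.card_fin,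
          ← Real.rpow_natCast, ← Real.rpow_mul (by positivity)]
        rw [mul_comm a (q : ℝ)]
        ring

/-- The sum over all `(x, y)` in a box. -/
lemma sum_box (h q n : ℕ) :
    ∑ p ∈ (Fintype.piFinset fun _ : Fin h => Finset.Icc 1 n) ×ˢ
        (Fintype.piFinset fun _ : Fin q => Finset.Icc 1 n),
      ((∏ i, (p.1 i : ℝ)⁻¹) * ∏ j, (p.2 j : ℝ)⁻¹) =
    (∑ t ∈ Finset.Icc 1 n, (t : ℝ)⁻¹) ^ (h + q) := by
  rw [Finset.sum_product, pow_add]
  have h1 : ∀ m : ℕ, (∑ t ∈ Finset.Icc 1 n, (t : ℝ)⁻¹) ^ m =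
      ∑ x ∈ Fintype.piFinset (fun _ : Fin m => Finset.Icc 1 n), ∏ i, (x i : ℝ)⁻¹ := by
    intro m
    rw [← Finset.prod_univ_sum (fun _ : Fin m => Finset.Icc 1 n) (fun _ t => (t : ℝ)⁻¹)]
    simp
  rw [h1 h, h1 q, Finset.sum_mul_sum]

end Pool.Agent.TH405
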