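import Mathlib
import Pool.Agent.TH405.Par
import Pool.Agent.TH405.Count

/-!
Elements of the blocks are addressed by a group and a slot; configurations and their cells.
-/

set_option autoImplicit false

namespace Pool.Agent.TH405

open Filter Finset

open scoped Classical in
/-- The index of the block of `c`. -/
noncomputable def kb (c : ℕ) : ℕ := if h : ∃ k, c ∈ Bk k then h.choose else 0

lemma kb_eq {c k : ℕ} (hc : c ∈ Bk k) : kb c = k := by
  have h : ∃ k, c ∈ Bk k := ⟨k, hc⟩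
  unfold kb
  rw [dif_pos h]
  exact Bk_uniq h.choose_spec hc

/-- The position of `c` in its block. -/
noncomputable def idx (c : ℕ) : ℕ := ((Bk (kb c)).filter (· < c)).card

lemma idx_lt {c k : ℕ} (hc : c ∈ Bk k) : idx c < (Bk k).card := by
  unfold idx
  rw [kb_eq hc]
  apply Finset.card_lt_card
  rw [Finset.filter_ssubset]
  exact ⟨c, hc, lt_irrefl c⟩

lemma idx_lt_idx {c d k : ℕ} (hc : c ∈ Bk k) (hd : d ∈ Bk k) (h : c < d) : idx c < idx d := by
  unfold idx
  rw [kb_eq hc, kb_eq hd]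
  apply Finset.card_lt_card
  rw [Finset.ssubset_iff_of_subset]
  · exact ⟨c, by simp [hc, h], by simp⟩
  · intro e he
    rw [Finset.mem_filter] at he ⊢
    exact ⟨he.1, he.2.trans h⟩

lemma idx_inj {c d k : ℕ} (hc : c ∈ Bk k) (hd : d ∈ Bk k) (h : idx c = idx d) : c = d := by
  rcases lt_trichotomy c d with h1 | h1 | h1
  · have := idx_lt_idx hc hd h1; omega
  · exact h1
  · have := idx_lt_idx hd hc h1; omega

lemma idx_surj {k r : ℕ} (hr : r < (Bk k).card) : ∃ c ∈ Bk k, idx c = r := by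
  have := Finset.surjOn_of_injOn_of_card_le (s := Bk k) (t := Finset.range (Bk k).card) idx
    (fun c hc => by
      have := idx_lt (Finset.mem_coe.1 hc)
      simpa using this)
    (fun c hc d hd h => idx_inj hc hd h) (by simp)
  obtain ⟨c, hc, hcr⟩ := this (by simpa using hr)
  exact ⟨c, hc, hcr⟩

/-- group and slot -/
noncomputable def code (h q : ℕ) (c : ℕ) : (ℕ × ℕ) × ℕ :=
  ((kb c, idx c / sk h q (kb c)), idx c % sk h q (kb c))

lemma code_inj (h q : ℕ) {c d : ℕ} (hc : c ∈ Bk (kb c)) (hd : d ∈ Bk (kb d))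
    (hcd : code h q c = code h q d) : c = d := by
  unfold code at hcd
  have h1 : kb c = kb d := congrArg (fun e => e.1.1) hcd
  rw [← h1] at hcd hd
  have h2 : idx c / sk h q (kb c) = idx d / sk h q (kb c) := congrArg (fun e => e.1.2) hcd
  have h3 : idx c % sk h q (kb c) = idx d % sk h q (kb c) := congrArg (fun e => e.2) hcd
  apply idx_inj hc hd
  rw [← Nat.div_add_mod (idx c) (sk h q (kb c)), ← Nat.div_add_mod (idx d) (sk h q (kb c)), h2, h3]

/-- The random set. -/
def RS (h q : ℕ) (k₀ : ℕ) (ω : ℕ × ℕ → ℕ) : Set ℕ :=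
  {c | c ∈ Bk (kb c) ∧ k₀ ≤ kb c ∧ idx c / sk h q (kb c) < Mk h q (kb c) ∧
    ω (code h q c).1 = (code h q c).2}

open scoped Classical in
lemma RS_card (h q : ℕ) (k₀ : ℕ) (ω : ℕ × ℕ → ℕ) (hω : ∀ i, ω i < sk h q i.1) {k : ℕ}
    (hk : k₀ ≤ k) : Mk h q k ≤ ((Bk k).filter (· ∈ RS h q k₀ ω)).card := by
  have hex : ∀ l, l < Mk h q k → ∃ c ∈ Bk k, idx c = l * sk h q k + ω (k, l) := by
    intro l hl
    apply idx_surj
    have h1 := hω (k, l)
    have h2 : (l + 1) * sk h q k ≤ Mk h q k * sk h q k := Nat.mul_le_mul_right _ hl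
    have h3 : Mk h q k * sk h q k ≤ (Bk k).card := Nat.div_mul_le_self _ _
    simp only at h1
    nlinarith
  choose! f hf hfi using hex
  have hdiv : ∀ l, l < Mk h q k → idx (f l) / sk h q k = l := by
    intro l hl
    rw [hfi l hl]
    have h1 : ω (k, l) < sk h q k := hω (k, l)
    rw [add_comm, Nat.add_mul_div_right _ _ (sk_pos h q k), Nat.div_eq_of_lt h1, zero_add]
  have hmod : ∀ l, l < Mk h q k → idx (f l) % sk h q k = ω (k, l) := by
    intro l hl
    rw [hfi l hl]
    have h1 : ω (k, l) < sk h q k := hω (k, l)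
    rw [add_comm, Nat.add_mul_mod_self_right, Nat.mod_eq_of_lt h1]
  have := Finset.card_le_card_of_injOn (s := Finset.range (Mk h q k))
    (t := (Bk k).filter (· ∈ RS h q k₀ ω)) f (by
      intro l hl
      have hl : l < Mk h q k := by simpa using hl
      have hkb : kb (f l) = k := kb_eq (hf l hl)
      simp only [Finset.coe_filter, Set.mem_ofPred_eq]
      refine ⟨hf l hl, ?_⟩
      unfold RS code
      simp only [Set.mem_ofPred_eq, hkb, hdiv l hl, hmod l hl]
      exact ⟨hf l hl, hk, hl, trivial⟩)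
    (by
      intro l hl m hm hlm
      have hl : l < Mk h q k := by simpa using hl
      have hm : m < Mk h q k := by simpa using hm
      rw [← hdiv l hl, ← hdiv m hm, hlm])
  simpa using this

/-- The cells `x i` and `x i + y j`. -/
def cell {h q : ℕ} (x : Fin h → ℕ) (y : Fin q → ℕ) : Fin h ⊕ (Fin h × Fin q) → ℕ
  | Sum.inl i => x i
  | Sum.inr p => x p.1 + y p.2

lemma cell_inj {h q : ℕ} {x : Fin h → ℕ} {y : Fin q → ℕ} (hx : Function.Injective x)
    (hy : Function.Injective y) (hy1 : ∀ j, 1 ≤ y j)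
    (hc : ∀ e, cell x y e ∈ Bk (kb (cell x y e))) : Function.Injective (cell x y) := by
  have key : ∀ i i' j j', x i + y j = x i' + y j' → i = i' ∧ j = j' := by
    intro i i' j j' h
    have := union_free (hc (Sum.inr (i, j'))) (hc (Sum.inr (i', j))) (hc (Sum.inr (i, j)))
      (by simp only [cell]; omega)
    simp only [cell] at this
    have h1 : y j = y j' := by omega
    have h2 : x i = x i' := by omega
    exact ⟨hx h2, hy h1⟩
  have key2 : ∀ i i' j, x i ≠ x i' + y j := by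
    intro i i' j h
    have := union_free (hc (Sum.inl i')) (hc (Sum.inr (i, j))) (hc (Sum.inl i))
      (by simp only [cell]; omega)
    simp only [cell] at this
    have h1 := hy1 j
    omega
  rintro (i | ⟨i, j⟩) (i' | ⟨i', j'⟩) h
  · simp only [cell] at h
    rw [hx h]
  · exact absurd h (key2 _ _ _)
  · exact absurd h.symm (key2 _ _ _)
  · obtain ⟨rfl, rfl⟩ := key _ _ _ _ h
    rfl

/-- At least two cells of a configuration lie in the block of the largest cell. -/
lemma two_cells {h q : ℕ} (hh : 2 ≤ h) (hq : 1 ≤ q) {x : Fin h → ℕ} {y : Fin q → ℕ} {k : ℕ}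
    (hc : ∀ e, cell x y e ∈ Bk (kb (cell x y e)))
    (htop : Finset.univ.sup x + Finset.univ.sup y ∈ Bk k) :
    ∃ e₁ e₂, e₁ ≠ e₂ ∧ kb (cell x y e₁) = k ∧ kb (cell x y e₂) = k := by
  have : NeZero h := ⟨by omega⟩
  have : NeZero q := ⟨by omega⟩
  obtain ⟨i, -, hi⟩ := Finset.exists_mem_eq_sup (Finset.univ : Finset (Fin h))
    Finset.univ_nonempty x
  obtain ⟨j, -, hj⟩ := Finset.exists_mem_eq_sup (Finset.univ : Finset (Fin q))
    Finset.univ_nonempty y
  rw [hi, hj] at htop
  have near : ∀ c, c ∈ Bk (kb c) → c ≤ x i + y j → x i + y j ≤ 2 * c → kb c = k := by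
    intro c hcb h1 h2
    apply le_antisymm (Bk_mono hcb htop h1)
    by_contra hlt
    have := Bk_half htop hcb (by omega)
    omega
  rcases le_total (y j) (x i) with h1 | h1
  · refine ⟨Sum.inl i, Sum.inr (i, j), by simp, ?_, kb_eq htop⟩
    exact near _ (hc (Sum.inl i)) (by simp [cell]) (by simp only [cell]; omega)
  · obtain ⟨i', hi'⟩ : ∃ i' : Fin h, i' ≠ i := by
      have : Nontrivial (Fin h) := Fin.nontrivial_iff_two_le.2 hh
      exact exists_ne i
    refine ⟨Sum.inr (i', j), Sum.inr (i, j), by simpa using hi', ?_, kb_eq htop⟩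
    have hle : x i' ≤ x i := by
      rw [← hi]; exact Finset.le_sup (Finset.mem_univ i')
    exact near _ (hc (Sum.inr (i', j))) (by simp only [cell]; omega) (by simp only [cell]; omega)

lemma prod_le_sq {ι : Type*} [Fintype ι] [DecidableEq ι] (f : ι → ℝ) (h0 : ∀ i, 0 ≤ f i)
    (h1 : ∀ i, f i ≤ 1) {i j : ι} (hij : i ≠ j) {u : ℝ} (hi : f i = u) (hj : f j = u) :
    ∏ i, f i ≤ u ^ 2 := by
  rw [← Finset.mul_prod_erase Finset.univ f (Finset.mem_univ i),
    ← Finset.mul_prod_erase (Finset.univ.erase i) f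
      (Finset.mem_erase.2 ⟨hij.symm, Finset.mem_univ j⟩), hi, hj]
  have h2 : ∏ x ∈ (Finset.univ.erase i).erase j, f x ≤ 1 :=
    Finset.prod_le_one (fun _ _ => h0 _) (fun _ _ => h1 _)
  have hu : 0 ≤ u := hi ▸ h0 i
  calc u * (u * ∏ x ∈ (Finset.univ.erase i).erase j, f x) ≤ u * (u * 1) := by gcongr
    _ = u ^ 2 := by ring

/-- The probability of a configuration. -/
lemma prob_cfg {h q : ℕ} (hh : 2 ≤ h) (hq : 1 ≤ q) {x : Fin h → ℕ} {y : Fin q → ℕ} {k : ℕ}
    (hx1 : ∀ i, 1 ≤ x i) (hy1 : ∀ j, 1 ≤ y j) (hyn : ∀ j, y j ≤ nk k)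
    (hc : ∀ e, cell x y e ∈ Bk (kb (cell x y e)))
    (htop : Finset.univ.sup x + Finset.univ.sup y ∈ Bk k) :
    ∏ e, ((sk h q (kb (cell x y e)) : ℝ))⁻¹ ≤
      (uk h q k) ^ 2 * (nk k : ℝ) ^ (alp h q) * ((∏ i, (x i : ℝ)⁻¹) * ∏ j, (y j : ℝ)⁻¹) := by
  classical
  obtain ⟨e₁, e₂, hne, h1, h2⟩ := two_cells hh hq hc htop
  calc ∏ e, ((sk h q (kb (cell x y e)) : ℝ))⁻¹
      ≤ ∏ e, (uk h q (kb (cell x y e)) * (cell x y e : ℝ) ^ (-gam h q)) := by
        apply Finset.prod_le_prod
        · intro e _; positivity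
        · intro e _; exact inv_sk h q hh (hc e)
    _ = (∏ e, uk h q (kb (cell x y e))) * ∏ e, (cell x y e : ℝ) ^ (-gam h q) :=
        Finset.prod_mul_distrib
    _ ≤ (uk h q k) ^ 2 * ∏ e, (cell x y e : ℝ) ^ (-gam h q) := by
        apply mul_le_mul_of_nonneg_right
        · exact prod_le_sq _ (fun e => uk_nonneg h q _) (fun e => uk_le_one h q _) hne
            (by rw [h1]) (by rw [h2])
        · apply Finset.prod_nonneg
          intro e _; positivity
    _ ≤ (uk h q k) ^ 2 * ((nk k : ℝ) ^ (alp h q) *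
          ((∏ i, (x i : ℝ)⁻¹) * ∏ j, (y j : ℝ)⁻¹)) := by
        apply mul_le_mul_of_nonneg_left _ (sq_nonneg _)
        rw [Fintype.prod_sum_type, Fintype.prod_prod_type]
        exact weight_bound h q (by omega) hq (by nlinarith) (nk k) x y hx1 hy1 hyn
    _ = _ := by ring

end Pool.Agent.TH405
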