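import Mathlib

/-!
A random choice of one slot `ω i < N i` in every group `i`, all slots of a group equally likely and
the groups independent: a first moment statement for a countable family of events
`T j ⊆ {(i, ω i)}`.
-/

set_option autoImplicit false

namespace Pool.Agent.TH405

open MeasureTheory ENNReal

/-- The uniform measure on `Fin (N i)`. -/
noncomputable def unif {ι : Type*} (N : ι → ℕ) (i : ι) [NeZero (N i)] : Measure (Fin (N i)) :=
  (PMF.uniformOfFintype (Fin (N i))).toMeasure

instance {ι : Type*} (N : ι → ℕ) (i : ι) [NeZero (N i)] : IsProbabilityMeasure (unif N i) := by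
  unfold unif; infer_instance

lemma unif_le {ι : Type*} (N : ι → ℕ) (i : ι) [NeZero (N i)] (s : Set (Fin (N i)))
    (hs : s.Subsingleton) : unif N i s ≤ (N i : ℝ≥0∞)⁻¹ := by
  rcases hs.eq_empty_or_singleton with rfl | ⟨a, rfl⟩
  · simp
  · unfold unif
    rw [PMF.toMeasure_apply_singleton _ _ (measurableSet_singleton a),
      PMF.uniformOfFintype_apply]
    simp

/-- First moment method for a random choice of slots. -/
lemma first_moment {ι J : Type*} [Countable J] (N : ι → ℕ) (hN : ∀ i, 0 < N i)
    (w : J → ℝ≥0∞) (T : J → Finset (ι × ℕ))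
    (hsum : ∑' j, w j * ∏ e ∈ T j, ((N e.1 : ℝ≥0∞)⁻¹) < 1) :
    ∃ ω : ι → ℕ, (∀ i, ω i < N i) ∧
      ∑' j, (w j * Set.indicator {j | ∀ e ∈ T j, ω e.1 = e.2} 1 j) < 1 := by
  classical
  have : ∀ i, NeZero (N i) := fun i => ⟨(hN i).ne'⟩
  let P : Measure (∀ i, Fin (N i)) := Measure.infinitePi (fun i => unif N i)
  let t : J → ∀ i, Set (Fin (N i)) := fun j i => {x | ∀ e ∈ T j, e.1 = i → (x : ℕ) = e.2}
  let E : J → Set (∀ i, Fin (N i)) := fun j => Set.pi ((T j).image Prod.fst : Finset ι) (t j)
  have hE : ∀ j (ω : ∀ i, Fin (N i)), ω ∈ E j ↔ ∀ e ∈ T j, (ω e.1 : ℕ) = e.2 := by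
    intro j ω
    constructor
    · intro h e he
      have := h e.1 (by simpa using ⟨e.2, he⟩)
      exact this e he rfl
    · intro h i hi e he hei
      subst hei
      exact h e he
  have hEm : ∀ j, MeasurableSet (E j) := by
    intro j
    apply MeasurableSet.pi (Finset.countable_toSet _)
    intro i _
    exact (Set.toFinite _).measurableSet
  have hPE : ∀ j, P (E j) ≤ ∏ e ∈ T j, ((N e.1 : ℝ≥0∞)⁻¹) := by
    intro j
    by_cases hinj : Set.InjOn Prod.fst (T j : Set (ι × ℕ))
    · have h1 : P (E j) = ∏ i ∈ (T j).image Prod.fst, unif N i (t j i) :=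
        Measure.infinitePi_pi _ (fun i _ => (Set.toFinite _).measurableSet)
      rw [h1, Finset.prod_image hinj]
      apply Finset.prod_le_prod'
      intro e he
      apply unif_le
      intro x hx y hy
      have h2 := hx e he rfl
      have h3 := hy e he rfl
      exact Fin.ext (h2.trans h3.symm)
    · have : E j = ∅ := by
        rw [Set.eq_empty_iff_forall_notMem]
        intro ω hω
        apply hinj
        intro e he e' he' hee
        have h1 := (hE j ω).1 hω e he
        have h2 := (hE j ω).1 hω e' he'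
        refine Prod.ext hee ?_
        rw [← h1, ← h2, hee]
      rw [this]
      simp
  have hint : ∫⁻ ω, ∑' j, (w j * Set.indicator (E j) 1 ω) ∂P < 1 := by
    rw [lintegral_tsum (fun j => ((measurable_one.indicator (hEm j)).const_mul _).aemeasurable)]
    refine lt_of_le_of_lt (ENNReal.tsum_le_tsum fun j => ?_) hsum
    rw [lintegral_const_mul _ (measurable_one.indicator (hEm j))]
    gcongr
    rw [lintegral_indicator_one (hEm j)]
    exact hPE j
  obtain ⟨ω, hω⟩ := exists_le_lintegral (μ := P)
    (f := fun ω => ∑' j, (w j * Set.indicator (E j) 1 ω))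
    (Measurable.aemeasurable (by
      apply Measurable.ennreal_tsum
      intro j
      exact (measurable_one.indicator (hEm j)).const_mul _))
  refine ⟨fun i => (ω i : ℕ), fun i => (ω i).2, ?_⟩
  refine lt_of_le_of_lt (le_of_eq ?_) (lt_of_le_of_lt hω hint)
  apply tsum_congr
  intro j
  congr 1
  by_cases h : ω ∈ E j
  · rw [Set.indicator_of_mem h, Set.indicator_of_mem]
    · rfl
    · exact (hE j ω).1 h
  · rw [Set.indicator_of_notMem h, Set.indicator_of_notMem]
    intro hcon
    exact h ((hE j ω).2 hcon)

end Pool.Agent.TH405
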