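import Mathlib
import Pool.Agent.TH405.Rand
import Pool.Agent.TH405.Code
import Pool.Agent.TH405.Asym

/-!
A choice of the slots with few configurations in every block.
-/

set_option autoImplicit false

namespace Pool.Agent.TH405

open Filter Finset ENNReal

/-- configurations with the largest cell in block `k` -/
def Cf {h q : ℕ} (k : ℕ) (σ : (Fin h → ℕ) × (Fin q → ℕ)) : Prop :=
  Function.Injective σ.1 ∧ Function.Injective σ.2 ∧
    (∀ e, cell σ.1 σ.2 e ∈ Bk (kb (cell σ.1 σ.2 e))) ∧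
    Finset.univ.sup σ.1 + Finset.univ.sup σ.2 ∈ Bk k

/-- the configuration is picked -/
def Ev {h q : ℕ} (ω : ℕ × ℕ → ℕ) (σ : (Fin h → ℕ) × (Fin q → ℕ)) : Prop :=
  ∀ e, ω (code h q (cell σ.1 σ.2 e)).1 = (code h q (cell σ.1 σ.2 e)).2

/-- all `(x, y)` with values in `[1, nk k]` -/
def box (h q k : ℕ) : Finset ((Fin h → ℕ) × (Fin q → ℕ)) :=
  (Fintype.piFinset fun _ : Fin h => Finset.Icc 1 (nk k)) ×ˢ
    (Fintype.piFinset fun _ : Fin q => Finset.Icc 1 (nk k))

lemma mem_box {h q k : ℕ} {σ : (Fin h → ℕ) × (Fin q → ℕ)} :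
    σ ∈ box h q k ↔ (∀ i, 1 ≤ σ.1 i ∧ σ.1 i ≤ nk k) ∧ (∀ j, 1 ≤ σ.2 j ∧ σ.2 j ≤ nk k) := by
  simp [box, Fintype.mem_piFinset]

open scoped Classical in
lemma term_le {h q : ℕ} (hh : 2 ≤ h) (hq : 1 ≤ q) {k : ℕ} {σ : (Fin h → ℕ) × (Fin q → ℕ)}
    (hb : σ ∈ box h q k) (hσ : Cf k σ) :
    ∏ e ∈ Finset.univ.image (fun e => code h q (cell σ.1 σ.2 e)),
      ((sk h q e.1.1 : ℝ≥0∞)⁻¹) ≤
    ENNReal.ofReal ((uk h q k) ^ 2 * (nk k : ℝ) ^ (alp h q) *
      ((∏ i, (σ.1 i : ℝ)⁻¹) * ∏ j, (σ.2 j : ℝ)⁻¹)) := by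
  rw [mem_box] at hb
  have hinj : Function.Injective (fun e => code h q (cell σ.1 σ.2 e)) := by
    intro e e' hee
    exact cell_inj hσ.1 hσ.2.1 (fun j => (hb.2 j).1) hσ.2.2.1
      (code_inj h q (hσ.2.2.1 e) (hσ.2.2.1 e') hee)
  rw [Finset.prod_image (fun a _ b _ hab => hinj hab)]
  have h1 := prob_cfg hh hq (fun i => (hb.1 i).1) (fun j => (hb.2 j).1) (fun j => (hb.2 j).2)
    hσ.2.2.1 hσ.2.2.2
  refine le_trans (le_of_eq ?_) (ENNReal.ofReal_le_ofReal h1)
  rw [ENNReal.ofReal_prod_of_nonneg (fun _ _ => by positivity)]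
  apply Finset.prod_congr rfl
  intro e _
  simp only [code]
  rw [ENNReal.ofReal_inv_of_pos (by exact_mod_cast sk_pos h q _), ENNReal.ofReal_natCast]

open scoped Classical in
lemma select (h q : ℕ) (hh : 2 ≤ h) (hq : 1 ≤ q) :
    ∃ k₀ : ℕ, ∃ ω : ℕ × ℕ → ℕ, (∀ i, ω i < sk h q i.1) ∧ ∀ k, k₀ ≤ k → 2 ≤ Lk h q k ∧
      2 * ((box h q k).filter (fun σ => Cf k σ ∧ Ev ω σ)).card < Mk h q k := by
  obtain ⟨k₀, hk₀⟩ := eventually_atTop.1 (Lk_ge_two h q hh hq)
  refine ⟨k₀, ?_⟩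
  let J := ℕ × ((Fin h → ℕ) × (Fin q → ℕ))
  let w : J → ℝ≥0∞ := fun j => if k₀ ≤ j.1 ∧ j.2 ∈ box h q j.1 ∧ Cf j.1 j.2 then
    ENNReal.ofReal (2 / (Mk h q j.1 : ℝ)) else 0
  let T : J → Finset ((ℕ × ℕ) × ℕ) := fun j =>
    Finset.univ.image (fun e => code h q (cell j.2.1 j.2.2 e))
  have hZ := Zc_nonneg
  have hsum : ∑' j, w j * ∏ e ∈ T j, ((sk h q e.1.1 : ℝ≥0∞)⁻¹) < 1 := by
    have h1 : ∀ k, ∑' σ : (Fin h → ℕ) × (Fin q → ℕ),
        w (k, σ) * ∏ e ∈ T (k, σ), ((sk h q e.1.1 : ℝ≥0∞)⁻¹) ≤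
        ENNReal.ofReal ((1 / 2) * (Zc + 1)⁻¹ * (1 / ((k : ℝ) + 1) ^ 2)) := by
      intro k
      by_cases hk : k₀ ≤ k
      · have hL := hk₀ k hk
        rw [tsum_eq_sum (s := box h q k) (fun σ hσ => by
          simp only [w]
          rw [if_neg (fun hcon => hσ hcon.2.1), zero_mul])]
        have hMpos : (0 : ℝ) ≤ 2 / (Mk h q k : ℝ) := by positivity
        calc ∑ σ ∈ box h q k, w (k, σ) * ∏ e ∈ T (k, σ), ((sk h q e.1.1 : ℝ≥0∞)⁻¹)
            ≤ ∑ σ ∈ box h q k, ENNReal.ofReal ((2 / (Mk h q k : ℝ)) *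
                ((uk h q k) ^ 2 * (nk k : ℝ) ^ (alp h q) *
                ((∏ i, (σ.1 i : ℝ)⁻¹) * ∏ j, (σ.2 j : ℝ)⁻¹))) := by
              apply Finset.sum_le_sum
              intro σ hσ
              simp only [w]
              split_ifs with hcf
              · rw [ENNReal.ofReal_mul hMpos]
                gcongr
                exact term_le hh hq hσ hcf.2.2
              · simp
          _ = ENNReal.ofReal (∑ σ ∈ box h q k, ((2 / (Mk h q k : ℝ)) *
                ((uk h q k) ^ 2 * (nk k : ℝ) ^ (alp h q) *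
                ((∏ i, (σ.1 i : ℝ)⁻¹) * ∏ j, (σ.2 j : ℝ)⁻¹)))) := by
              rw [ENNReal.ofReal_sum_of_nonneg]
              intro σ _
              apply mul_nonneg hMpos
              apply mul_nonneg
              · positivity
              · apply mul_nonneg <;> exact Finset.prod_nonneg (fun _ _ => by positivity)
          _ ≤ ENNReal.ofReal ((1 / 2) * (Zc + 1)⁻¹ * (1 / ((k : ℝ) + 1) ^ 2)) := by
              apply ENNReal.ofReal_le_ofReal
              rw [← Finset.mul_sum, ← Finset.mul_sum]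
              unfold box
              rw [sum_box]
              exact Ek_le h q hh hL
      · refine le_trans (le_of_eq ?_) zero_le
        rw [ENNReal.tsum_eq_zero]
        intro σ
        simp only [w]
        rw [if_neg (fun hcon => hk hcon.1), zero_mul]
    rw [ENNReal.tsum_prod']
    refine lt_of_le_of_lt (ENNReal.tsum_le_tsum h1) ?_
    rw [← ENNReal.ofReal_tsum_of_nonneg (fun k => by positivity)
      (Zc_summable.mul_left _), tsum_mul_left]
    rw [← ENNReal.ofReal_one]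
    rw [ENNReal.ofReal_lt_ofReal_iff (by norm_num)]
    change (1 / 2) * (Zc + 1)⁻¹ * Zc < 1
    have h2 : (Zc + 1)⁻¹ * Zc ≤ 1 := by
      rw [inv_mul_le_iff₀ (by linarith)]
      linarith
    nlinarith
  obtain ⟨ω, hω, hlt⟩ := first_moment (fun i : ℕ × ℕ => sk h q i.1) (fun i => sk_pos h q i.1) w T
    hsum
  refine ⟨ω, hω, fun k hk => ⟨hk₀ k hk, ?_⟩⟩
  have hL := hk₀ k hk
  have hM := Mk_ge h q hh hL
  have hM0 : (0 : ℝ) < Mk h q k := by linarith
  set F := (box h q k).filter (fun σ => Cf k σ ∧ Ev ω σ) with hF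
  have h3 : (F.card : ℝ≥0∞) * ENNReal.ofReal (2 / (Mk h q k : ℝ)) < 1 := by
    refine lt_of_le_of_lt ?_ hlt
    calc (F.card : ℝ≥0∞) * ENNReal.ofReal (2 / (Mk h q k : ℝ))
        = ∑ j ∈ F.map ⟨fun σ => ((k, σ) : J), fun a b hab => by simpa using hab⟩,
            ENNReal.ofReal (2 / (Mk h q k : ℝ)) := by
          rw [Finset.sum_const, Finset.card_map, nsmul_eq_mul]
      _ = ∑ j ∈ F.map ⟨fun σ => ((k, σ) : J), fun a b hab => by simpa using hab⟩,
            (w j * Set.indicator {j | ∀ e ∈ T j, ω e.1 = e.2} 1 j) := by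
          apply Finset.sum_congr rfl
          intro j hj
          rw [Finset.mem_map] at hj
          obtain ⟨σ, hσ, rfl⟩ := hj
          rw [hF, Finset.mem_filter] at hσ
          simp only [w]
          rw [if_pos ⟨hk, hσ.1, hσ.2.1⟩, Set.indicator_of_mem]
          · simp only [Pi.one_apply, mul_one]
            rfl
          · intro e he
            simp only [T, Finset.mem_image, Finset.mem_univ, true_and] at he
            obtain ⟨a, rfl⟩ := he
            exact hσ.2.2 a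
      _ ≤ _ := ENNReal.sum_le_tsum _
  rw [← ENNReal.ofReal_natCast, ← ENNReal.ofReal_mul (by positivity), ← ENNReal.ofReal_one,
    ENNReal.ofReal_lt_ofReal_iff (by norm_num), mul_div_assoc', div_lt_one hM0] at h3
  have h4 : ((2 * F.card : ℕ) : ℝ) < Mk h q k := by push_cast; linarith
  exact_mod_cast h4

end Pool.Agent.TH405
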