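import Mathlib
import Pool.Agent.TH405.Select

/-!
The set `A`: the random set without the largest cells of its configurations.
-/

set_option autoImplicit false

namespace Pool.Agent.TH405

open Filter Finset

/-- the largest cells of the configurations inside `R` -/
def Rem (h q : ℕ) (R : Set ℕ) : Set ℕ :=
  {c | ∃ (x : Fin h → ℕ) (y : Fin q → ℕ), Function.Injective x ∧ Function.Injective y ∧
    (∀ j, 1 ≤ y j) ∧ (∀ e, cell x y e ∈ R) ∧ Finset.univ.sup x + Finset.univ.sup y = c}

open scoped Classical in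
theorem exists_nat_set (h q : ℕ) (hh : 2 ≤ h) (hq : 1 ≤ q) :
    ∃ (A : Set ℕ) (k₀ : ℕ), (∀ a ∈ A, 1 ≤ a) ∧
      (∀ (x : Fin h → ℕ) (y : Fin q → ℕ), Function.Injective x → Function.Injective y →
        (∀ j, 1 ≤ y j) → ¬ ∀ e, cell x y e ∈ A) ∧
      ∀ k, k₀ ≤ k → Lk h q k / 4 ≤ ((Bk k).filter (· ∈ A)).card ∧ 2 ≤ Lk h q k := by
  obtain ⟨k₀, ω, hω, hsel⟩ := select h q hh hq
  obtain ⟨R, hR⟩ : ∃ R : Set ℕ, R = RS h q k₀ ω := ⟨_, rfl⟩
  have hRm : ∀ c ∈ R, c ∈ Bk (kb c) ∧ ω (code h q c).1 = (code h q c).2 := by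
    intro c hc
    rw [hR] at hc
    exact ⟨hc.1, hc.2.2.2⟩
  obtain ⟨B, hB⟩ : ∃ B : Set ℕ, B = R \ Rem h q R := ⟨_, rfl⟩
  have hBm : ∀ c, c ∈ B ↔ c ∈ R ∧ c ∉ Rem h q R := by
    intro c; rw [hB]; rfl
  refine ⟨B, k₀, ?_, ?_, ?_⟩
  · intro a ha
    exact le_trans (Nat.one_le_pow _ _ (by norm_num)) (Bk_mem (hRm a ((hBm a).1 ha).1).1).1
  · intro x y hx hy hy1 hall
    have : NeZero h := ⟨by omega⟩
    have : NeZero q := ⟨by omega⟩
    obtain ⟨i, -, hi⟩ := Finset.exists_mem_eq_sup (Finset.univ : Finset (Fin h))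
      Finset.univ_nonempty x
    obtain ⟨j, -, hj⟩ := Finset.exists_mem_eq_sup (Finset.univ : Finset (Fin q))
      Finset.univ_nonempty y
    have h1 := (hBm _).1 (hall (Sum.inr (i, j)))
    apply h1.2
    refine ⟨x, y, hx, hy, hy1, fun e => ((hBm _).1 (hall e)).1, ?_⟩
    rw [hi, hj]
    rfl
  · intro k hk
    obtain ⟨hL, hcount⟩ := hsel k hk
    refine ⟨?_, hL⟩
    set F := (box h q k).filter (fun σ => Cf k σ ∧ Ev ω σ) with hF
    have h1 := RS_card h q k₀ ω hω hk
    rw [← hR] at h1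
    have h2 : ((Bk k).filter (· ∈ Rem h q R)).card ≤ F.card := by
      have hsub : (Bk k).filter (· ∈ Rem h q R) ⊆
          F.image (fun σ => Finset.univ.sup σ.1 + Finset.univ.sup σ.2) := by
        intro c hc
        rw [Finset.mem_filter] at hc
        obtain ⟨hck, x, y, hx, hy, hy1, hcell, htop⟩ := hc
        rw [Finset.mem_image]
        refine ⟨(x, y), ?_, htop⟩
        rw [hF, Finset.mem_filter, mem_box]
        have hcn : c ≤ nk k := (Bk_lt hck).le
        refine ⟨⟨fun i => ⟨?_, ?_⟩, fun j => ⟨hy1 j, ?_⟩⟩,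
          ⟨hx, hy, fun e => (hRm _ (hcell e)).1, ?_⟩, ?_⟩
        · exact le_trans (Nat.one_le_pow _ _ (by norm_num)) (Bk_mem (hRm _ (hcell (Sum.inl i))).1).1
        · have := Finset.le_sup (f := x) (Finset.mem_univ i)
          simp only
          omega
        · have := Finset.le_sup (f := y) (Finset.mem_univ j)
          simp only
          omega
        · simp only
          rw [htop]; exact hck
        · intro e
          exact (hRm _ (hcell e)).2
      exact (Finset.card_le_card hsub).trans Finset.card_image_le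
    have h3 : ((Bk k).filter (· ∈ R)).card ≤
        ((Bk k).filter (· ∈ B)).card + ((Bk k).filter (· ∈ Rem h q R)).card := by
      refine le_trans (Finset.card_le_card ?_) (Finset.card_union_le _ _)
      intro c hc
      rw [Finset.mem_filter] at hc
      rw [Finset.mem_union, Finset.mem_filter, Finset.mem_filter]
      by_cases hcr : c ∈ Rem h q R
      · exact Or.inr ⟨hc.1, hcr⟩
      · exact Or.inl ⟨hc.1, (hBm c).2 ⟨hc.2, hcr⟩⟩
    have h4 := Mk_ge h q hh hL
    have h5 : (Mk h q k : ℝ) ≤ ((Bk k).filter (· ∈ B)).card + F.card := by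
      have : Mk h q k ≤ ((Bk k).filter (· ∈ B)).card + F.card := by omega
      exact_mod_cast this
    have h6 : (2 : ℝ) * F.card < Mk h q k := by exact_mod_cast hcount
    linarith

end Pool.Agent.TH405
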