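import Pool.Agent.TH349.HI.Fixn

set_option autoImplicit false

open Finset Equiv

namespace Pool.Agent.TH405.J380

open Pool.Agent.TH349.HI

theorem pow_apply_iff {W : Type} [Fintype W] [DecidableEq W] (τ : Perm W) {w : W}
    (hw : w ∈ τ.support) (r : ℕ) :
    (τ ^ r) w = w ↔ #(τ.cycleOf w).support ∣ r := by
  have h := Perm.isCycleOn_support_cycleOf τ w
  exact h.pow_apply_eq (by rw [Perm.mem_support_cycleOf_iff]; exact ⟨Perm.SameCycle.refl _ _, hw⟩)

theorem sum_support {W : Type} [Fintype W] [DecidableEq W] (τ : Perm W) (r : ℕ) :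
    (∑ w ∈ τ.support, if (τ ^ r) w = w then 1 else 0) =
      (τ.cycleType.map (fun k => if k ∣ r then k else 0)).sum := by
  rw [Perm.cycleType_def, Multiset.map_map]
  have h1 : (Multiset.map ((fun k => if k ∣ r then k else 0) ∘ (Finset.card ∘ Perm.support))
      τ.cycleFactorsFinset.1).sum =
      ∑ c ∈ τ.cycleFactorsFinset, (if #c.support ∣ r then #c.support else 0) := rfl
  rw [h1]
  have h2 : ∀ c ∈ τ.cycleFactorsFinset, (if #c.support ∣ r then #c.support else 0) =
      ∑ w ∈ c.support, if (τ ^ r) w = w then 1 else 0 := by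
    intro c hc
    have h3 : ∀ w ∈ c.support, (if (τ ^ r) w = w then 1 else 0) =
        (if #c.support ∣ r then 1 else 0) := by
      intro w hw
      have h4 : c = τ.cycleOf w := Perm.cycle_is_cycleOf hw hc
      have h5 : w ∈ τ.support := Perm.mem_cycleFactorsFinset_support_le hc hw
      rw [h4]
      simp only [pow_apply_iff τ h5]
    rw [Finset.sum_congr rfl h3, Finset.sum_const]
    split_ifs <;> simp
  rw [Finset.sum_congr rfl h2]
  rw [← Finset.sum_biUnion]
  · apply Finset.sum_congr _ (fun _ _ => rfl)
    ext w
    simp only [Finset.mem_biUnion]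
    constructor
    · intro hw
      exact ⟨τ.cycleOf w, by rwa [Perm.cycleOf_mem_cycleFactorsFinset_iff],
        by rw [Perm.mem_support_cycleOf_iff]; exact ⟨Perm.SameCycle.refl _ _, hw⟩⟩
    · rintro ⟨c, hc, hw⟩
      exact Perm.mem_cycleFactorsFinset_support_le hc hw
  · intro c hc d hd hcd
    exact Perm.Disjoint.disjoint_support (Perm.cycleFactorsFinset_pairwise_disjoint τ hc hd hcd)

theorem card_fixed_pow {W : Type} [Fintype W] [DecidableEq W] (τ : Perm W) (K : ℕ)
    (hK : Fintype.card W ≤ K) (r : ℕ) (_hr : 1 ≤ r) :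
    Nat.card {w // (τ ^ r) w = w} = fixn K (cyc τ) r := by
  classical
  have h0 : Nat.card {w // (τ ^ r) w = w} = ∑ w : W, if (τ ^ r) w = w then 1 else 0 := by
    rw [Nat.card_eq_fintype_card, Fintype.card_subtype, Finset.card_filter]
  have h1 : (∑ w : W, if (τ ^ r) w = w then 1 else 0) =
      (τ.partition.parts.map (fun k => if k ∣ r then k else 0)).sum := by
    rw [Perm.parts_partition, Multiset.map_add, Multiset.sum_add, ← sum_support,
      Multiset.map_replicate, Multiset.sum_replicate, if_pos (one_dvd r)]
    rw [← Finset.sum_add_sum_compl τ.support]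
    congr 1
    have h2 : ∀ w ∈ (τ.support)ᶜ, (if (τ ^ r) w = w then 1 else 0) = 1 := by
      intro w hw
      rw [Finset.mem_compl, Perm.notMem_support] at hw
      rw [if_pos (Perm.pow_apply_eq_self_of_apply_eq_self hw r)]
    rw [Finset.sum_congr rfl h2, Finset.sum_const, Finset.card_compl]
  rw [h0, h1]
  unfold fixn cyc
  rw [Finset.sum_multiset_map_count]
  have hsub : τ.partition.parts.toFinset ⊆ Icc 1 K := by
    intro k hk
    rw [Multiset.mem_toFinset] at hk
    rw [Finset.mem_Icc]
    refine ⟨τ.partition.parts_pos hk, ?_⟩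
    have := Multiset.le_sum_of_mem hk
    rw [τ.partition.parts_sum] at this
    omega
  rw [← Finset.sum_subset hsub]
  · apply Finset.sum_congr rfl
    intro k _
    split_ifs
    · simp [mul_comm]
    · simp
  · intro k _ hk
    rw [Multiset.mem_toFinset] at hk
    rw [Multiset.count_eq_zero_of_notMem hk]
    simp

/-- the product in the denominator -/
theorem den_eq {N : ℕ} (π : N.Partition) :
    (N - (π.parts.filter (fun n => 2 ≤ n)).sum).factorial * (π.parts.filter (fun n => 2 ≤ n)).prod *
      (∏ n ∈ (π.parts.filter (fun n => 2 ≤ n)).toFinset,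
        ((π.parts.filter (fun n => 2 ≤ n)).count n).factorial) =
    ∏ k ∈ Icc 1 N, (k ^ π.parts.count k * (π.parts.count k).factorial) := by
  classical
  set m := π.parts.filter (fun n => 2 ≤ n) with hm
  have hparts : π.parts = m + Multiset.replicate (π.parts.count 1) 1 := by
    ext a
    rw [Multiset.count_add, Multiset.count_replicate, hm, Multiset.count_filter]
    by_cases ha : a ∈ π.parts
    · have hpos := π.parts_pos ha
      rcases Nat.lt_or_ge a 2 with h | h
      · have : a = 1 := by omega
        subst this
        simp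
      · rw [if_pos h, if_neg (by omega)]; simp
    · rw [Multiset.count_eq_zero_of_notMem ha]
      split_ifs with h1 h2 h2
      · omega
      · rfl
      · subst h2; rw [Multiset.count_eq_zero_of_notMem ha]
      · rfl
  have hsum : m.sum + π.parts.count 1 = N := by
    have := congrArg Multiset.sum hparts
    rw [Multiset.sum_add, Multiset.sum_replicate, π.parts_sum] at this
    simp at this
    omega
  have hN : N - m.sum = π.parts.count 1 := by omega
  rw [hN]
  by_cases hN0 : N = 0
  · subst hN0
    have h0 : π.parts.count 1 = 0 := by omega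
    have hm0 : m = 0 := by
      rw [Multiset.eq_zero_iff_forall_notMem]
      intro a ha
      have h2 : 2 ≤ a := by rw [hm, Multiset.mem_filter] at ha; exact ha.2
      have := Multiset.le_sum_of_mem ha
      omega
    rw [hm0, h0]; simp
  have h1N : 1 ∈ Icc 1 N := by rw [Finset.mem_Icc]; omega
  rw [← Finset.mul_prod_erase _ _ h1N]
  rw [one_pow, one_mul, mul_assoc]
  congr 1
  have hsub : m.toFinset ⊆ (Icc 1 N).erase 1 := by
    intro k hk
    rw [Multiset.mem_toFinset] at hk
    have h2 : 2 ≤ k := by rw [hm, Multiset.mem_filter] at hk; exact hk.2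
    have := Multiset.le_sum_of_mem hk
    rw [Finset.mem_erase, Finset.mem_Icc]
    omega
  rw [← Finset.prod_subset hsub]
  · rw [Finset.prod_mul_distrib, Finset.prod_multiset_count]
    congr 1
    · apply Finset.prod_congr rfl
      intro k hk
      rw [Multiset.mem_toFinset] at hk
      have h2 : 2 ≤ k := by rw [hm, Multiset.mem_filter] at hk; exact hk.2
      rw [hm, Multiset.count_filter, if_pos h2]
    · apply Finset.prod_congr rfl
      intro k hk
      rw [Multiset.mem_toFinset] at hk
      have h2 : 2 ≤ k := by rw [hm, Multiset.mem_filter] at hk; exact hk.2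
      rw [hm, Multiset.count_filter, if_pos h2]
  · intro k hk hkm
    rw [Finset.mem_erase, Finset.mem_Icc] at hk
    rw [Multiset.mem_toFinset, hm, Multiset.mem_filter] at hkm
    have : k ∉ π.parts := fun h => hkm ⟨h, by omega⟩
    rw [Multiset.count_eq_zero_of_notMem this]
    simp

theorem sum_perm_partition {F : Type} [Field F] [CharZero F] (N : ℕ) (g : (ℕ → ℕ) → F) :
    ∑ τ : Perm (Fin N), g (cyc τ) = ∑ π : N.Partition,
      (N.factorial : F) / ((∏ k ∈ Icc 1 N, (k ^ π.parts.count k * (π.parts.count k).factorial) : ℕ) : F)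
        * g (fun k => π.parts.count k) := by
  classical
  -- the partition as a partition of N
  let P : Perm (Fin N) → N.Partition := fun τ =>
    ⟨τ.partition.parts, fun h => τ.partition.parts_pos h, by
      rw [τ.partition.parts_sum, Fintype.card_fin]⟩
  have hP : ∀ τ, (P τ).parts = τ.partition.parts := fun _ => rfl
  rw [← Finset.sum_fiberwise (s := (Finset.univ : Finset (Perm (Fin N)))) (g := P)]
  apply Finset.sum_congr rfl
  intro π _
  have h1 : ∀ τ ∈ Finset.univ.filter (fun τ : Perm (Fin N) => P τ = π),
      g (cyc τ) = g (fun k => π.parts.count k) := by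
    intro τ hτ
    rw [Finset.mem_filter] at hτ
    congr 1
    ext k
    unfold cyc
    rw [← hP, hτ.2]
  rw [Finset.sum_congr rfl h1, Finset.sum_const, nsmul_eq_mul]
  congr 1
  have h2 : Finset.univ.filter (fun τ : Perm (Fin N) => P τ = π) =
      Finset.univ.filter (fun τ : Perm (Fin N) =>
        τ.cycleType = π.parts.filter (fun n => 2 ≤ n)) := by
    ext τ
    simp only [Finset.mem_filter, Finset.mem_univ, true_and]
    constructor
    · intro h
      rw [← h, hP, Perm.filter_parts_partition_eq_cycleType]
    · intro h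
      apply Nat.Partition.ext
      rw [hP]
      -- both are determined by the filter and the sum
      have key : ∀ (s : Multiset ℕ), (∀ a ∈ s, 0 < a) →
          s = s.filter (fun n => 2 ≤ n) + Multiset.replicate (s.sum - (s.filter (fun n => 2 ≤ n)).sum) 1 := by
        intro s hs
        have e1 : s = s.filter (fun n => 2 ≤ n) + s.filter (fun n => ¬ 2 ≤ n) :=
          (Multiset.filter_add_not _ _).symm
        have e2 : s.filter (fun n => ¬ 2 ≤ n) =
            Multiset.replicate (s.filter (fun n => ¬ 2 ≤ n)).card 1 := by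
          rw [Multiset.eq_replicate]
          refine ⟨rfl, ?_⟩
          intro b hb
          rw [Multiset.mem_filter] at hb
          have := hs b hb.1
          omega
        have e3 : s.sum - (s.filter (fun n => 2 ≤ n)).sum = (s.filter (fun n => ¬ 2 ≤ n)).card := by
          have : s.sum = (s.filter (fun n => 2 ≤ n)).sum + (s.filter (fun n => ¬ 2 ≤ n)).sum := by
            conv_lhs => rw [e1]
            rw [Multiset.sum_add]
          have h4 : (s.filter (fun n => ¬ 2 ≤ n)).sum = (s.filter (fun n => ¬ 2 ≤ n)).card := by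
            conv_lhs => rw [e2]
            rw [Multiset.sum_replicate]; simp
          omega
        rw [e3, ← e2]
        exact e1
      have k1 := key τ.partition.parts (fun a ha => τ.partition.parts_pos ha)
      have k2 := key π.parts (fun a ha => π.parts_pos ha)
      rw [k1, k2, Perm.filter_parts_partition_eq_cycleType, h, τ.partition.parts_sum, π.parts_sum,
        Fintype.card_fin]
  rw [h2]
  have h3 := Perm.card_of_cycleType_mul_eq (Fin N) (π.parts.filter (fun n => 2 ≤ n))
  have h4 : (π.parts.filter (fun n => 2 ≤ n)).sum ≤ Fintype.card (Fin N) ∧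
      ∀ a ∈ π.parts.filter (fun n => 2 ≤ n), 2 ≤ a := by
    refine ⟨?_, fun a ha => (Multiset.mem_filter.mp ha).2⟩
    rw [Fintype.card_fin]
    have h5 := congrArg Multiset.sum (Multiset.filter_add_not (fun n => 2 ≤ n) π.parts)
    rw [Multiset.sum_add, π.parts_sum] at h5
    omega
  rw [if_pos h4, Fintype.card_fin, den_eq π] at h3
  have hD : ((∏ k ∈ Icc 1 N, (k ^ π.parts.count k * (π.parts.count k).factorial) : ℕ) : F) ≠ 0 := by
    rw [Nat.cast_ne_zero]
    apply Finset.prod_ne_zero_iff.mpr
    intro k hk
    rw [Finset.mem_Icc] at hk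
    have : 0 < k := by omega
    positivity
  rw [eq_div_iff hD]
  exact_mod_cast h3

end Pool.Agent.TH405.J380
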