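import Pool.Agent.TH477.PA.Defs
set_option autoImplicit false
open Finset Pool.Agent.TH477.PA

namespace Pool.Agent.TH405.J653

open Classical in
/-- number of same-class pairs in a finset -/
theorem same_pairs {V : Type} {p : ℕ} (κ : V → Fin p) (S : Finset V) :
    S.card ≤ ((S.offDiag.image (Function.uncurry Sym2.mk)).filter (fun z => (Sym2.map κ z).IsDiag)).card + p := by
  classical
  have hdisj : ∀ i ∈ (univ : Finset (Fin p)), ∀ j ∈ (univ : Finset (Fin p)), i ≠ j →
      Disjoint (((S.filter (fun v => κ v = i)).offDiag).image (Function.uncurry Sym2.mk))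
        (((S.filter (fun v => κ v = j)).offDiag).image (Function.uncurry Sym2.mk)) := by
    intro i _ j _ hij
    rw [Finset.disjoint_left]
    intro z hz hz'
    rw [Finset.mem_image] at hz hz'
    obtain ⟨⟨x, y⟩, hxy, rfl⟩ := hz
    obtain ⟨⟨x', y'⟩, hxy', he⟩ := hz'
    rw [Finset.mem_offDiag, Finset.mem_filter, Finset.mem_filter] at hxy hxy'
    simp only at hxy hxy'
    rw [Function.uncurry_apply_pair, Function.uncurry_apply_pair, Sym2.eq_iff] at he
    rcases he with ⟨h1, h2⟩ | ⟨h1, h2⟩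
    · subst h1; exact hij (hxy.1.2.symm.trans hxy'.1.2)
    · subst h1; exact hij (hxy.2.1.2.symm.trans hxy'.1.2)
  have hsub : (univ : Finset (Fin p)).biUnion
      (fun i => ((S.filter (fun v => κ v = i)).offDiag).image (Function.uncurry Sym2.mk)) ⊆
      ((S.offDiag.image (Function.uncurry Sym2.mk)).filter (fun z => (Sym2.map κ z).IsDiag)) := by
    intro z hz
    rw [Finset.mem_biUnion] at hz
    obtain ⟨i, _, hz⟩ := hz
    rw [Finset.mem_image] at hz
    obtain ⟨⟨x, y⟩, hxy, rfl⟩ := hz
    rw [Finset.mem_offDiag, Finset.mem_filter, Finset.mem_filter] at hxy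
    simp only at hxy
    rw [Finset.mem_filter]
    refine ⟨Finset.mem_image.mpr ⟨(x, y), Finset.mem_offDiag.mpr ⟨hxy.1.1, hxy.2.1.1, hxy.2.2⟩, rfl⟩,
      ?_⟩
    change (Sym2.map κ s(x, y)).IsDiag
    rw [Sym2.map_mk, Sym2.mk_isDiag_iff]
    exact hxy.1.2.trans hxy.2.1.2.symm
  have hcard := Finset.card_le_card hsub
  rw [Finset.card_biUnion hdisj] at hcard
  have h1 : ∀ m : ℕ, m ≤ m.choose 2 + 1 := by
    intro m
    rcases m with _ | _ | m
    · simp
    · simp
    · have : (m + 2).choose 2 = (m + 1).choose 1 + (m + 1).choose 2 := by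
        rw [show m + 2 = (m + 1) + 1 from rfl, Nat.choose_succ_succ' (m + 1) 1]
      rw [this, Nat.choose_one_right]; omega
  have h2 : S.card = ∑ i : Fin p, (S.filter (fun v => κ v = i)).card :=
    Finset.card_eq_sum_card_fiberwise (fun _ _ => Finset.mem_univ _)
  have h3 : ∑ i : Fin p, (S.filter (fun v => κ v = i)).card ≤
      ∑ i : Fin p, ((((S.filter (fun v => κ v = i)).offDiag).image (Function.uncurry Sym2.mk)).card + 1) := by
    refine Finset.sum_le_sum fun i _ => ?_
    rw [Sym2.card_image_offDiag]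
    exact h1 _
  rw [Finset.sum_add_distrib, Finset.sum_const, Finset.card_univ, Fintype.card_fin, smul_eq_mul,
    mul_one] at h3
  omega

/-- a colouring of the complete graph whose same-class pairs use `c` colours is good -/
theorem good_of_same {V : Type} (k D p c r : ℕ) (hk : D ≤ k.choose 2) (hpc : p + c + D = k)
    (hr : 0 < r) (A : Finset (Fin r)) (hA : A.card = c) (κ : V → Fin p)
    (ψ : (⊤ : SimpleGraph V).edgeSet → Fin r)
    (hψ : ∀ e : (⊤ : SimpleGraph V).edgeSet, (Sym2.map κ e.1).IsDiag → ψ e ∈ A) :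
    ∀ S : Finset V, (⊤ : SimpleGraph V).IsNClique k S →
      Set.ncard {i : Fin r | ∃ e : (⊤ : SimpleGraph V).edgeSet,
        (∀ v ∈ (e : Sym2 V), v ∈ S) ∧ ψ e = i} < k.choose 2 + 1 - D := by
  classical
  intro S hS
  have hSk : S.card = k := hS.card_eq
  set Ψ : Sym2 V → Fin r := fun z =>
    if h : z ∈ (⊤ : SimpleGraph V).edgeSet then ψ ⟨z, h⟩ else ⟨0, hr⟩ with hΨ
  set P := S.offDiag.image (Function.uncurry Sym2.mk) with hP
  have hPc : P.card = k.choose 2 := by rw [hP, Sym2.card_image_offDiag, hSk]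
  have hsub : {i : Fin r | ∃ e : (⊤ : SimpleGraph V).edgeSet,
        (∀ v ∈ (e : Sym2 V), v ∈ S) ∧ ψ e = i} ⊆
      (↑(A ∪ (P.filter (fun z => ¬ (Sym2.map κ z).IsDiag)).image Ψ) : Set (Fin r)) := by
    rintro i ⟨⟨z, hz⟩, hzS, rfl⟩
    rw [Finset.mem_coe, Finset.mem_union]
    by_cases hd : (Sym2.map κ z).IsDiag
    · exact Or.inl (hψ ⟨z, hz⟩ hd)
    · right
      rw [Finset.mem_image]
      refine ⟨z, ?_, ?_⟩
      · rw [Finset.mem_filter]
        refine ⟨?_, hd⟩
        induction z using Sym2.ind with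
        | _ x y =>
          rw [hP, Finset.mem_image]
          refine ⟨(x, y), ?_, rfl⟩
          rw [Finset.mem_offDiag]
          refine ⟨hzS x (Sym2.mem_mk_left x y), hzS y (Sym2.mem_mk_right x y), ?_⟩
          rw [SimpleGraph.mem_edgeSet] at hz
          exact hz.ne
      · rw [hΨ]
        simp only
        rw [dif_pos hz]
  have h1 := Set.ncard_le_ncard hsub (Finset.finite_toSet _)
  rw [Set.ncard_coe_finset] at h1
  have h2 : (A ∪ (P.filter (fun z => ¬ (Sym2.map κ z).IsDiag)).image Ψ).card ≤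
      c + (P.filter (fun z => ¬ (Sym2.map κ z).IsDiag)).card := by
    refine (Finset.card_union_le _ _).trans ?_
    rw [hA]
    exact Nat.add_le_add_left Finset.card_image_le _
  have h3 := same_pairs κ S
  rw [hSk] at h3
  have h4 : (P.filter (fun z => (Sym2.map κ z).IsDiag)).card +
      (P.filter (fun z => ¬ (Sym2.map κ z).IsDiag)).card = P.card :=
    Finset.card_filter_add_card_filter_not _
  rw [hPc] at h4
  rw [← hP] at h3
  have h5 : k ≤ (P.filter (fun z => (Sym2.map κ z).IsDiag)).card + p := h3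
  omega

end Pool.Agent.TH405.J653
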