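import Pool.Agent.TH405.J653A
set_option autoImplicit false
open Finset Pool.Agent.TH477.PA

namespace Pool.Agent.TH405.J653

theorem cardPi {E : Type} [Fintype E] [DecidableEq E] {r : ℕ} (q : E → Prop) [DecidablePred q]
    (A : Finset (Fin r)) :
    (Fintype.piFinset (fun e : E => if q e then A else univ)).card =
      A.card ^ (univ.filter q).card * r ^ (univ.filter (fun e => ¬ q e)).card := by
  rw [Fintype.card_piFinset]
  have h : ∀ e : E, (if q e then A else (univ : Finset (Fin r))).card =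
      if q e then A.card else r := by
    intro e
    split_ifs
    · rfl
    · rw [Finset.card_univ, Fintype.card_fin]
  rw [Finset.prod_congr rfl (fun e _ => h e), Finset.prod_ite, Finset.prod_const, Finset.prod_const]

/-- number of same-class edges -/
noncomputable def nSame {n p : ℕ} (κ : Fin n → Fin p) : ℕ := by
  classical
  exact (univ.filter (fun e : (⊤ : SimpleGraph (Fin n)).edgeSet => (Sym2.map κ e.1).IsDiag)).card

theorem nSame_def {n p : ℕ} (κ : Fin n → Fin p)
    [DecidablePred (fun e : (⊤ : SimpleGraph (Fin n)).edgeSet => (Sym2.map κ e.1).IsDiag)] :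
    nSame κ = (univ.filter
      (fun e : (⊤ : SimpleGraph (Fin n)).edgeSet => (Sym2.map κ e.1).IsDiag)).card := by
  unfold nSame
  refine congrArg Finset.card ?_
  ext e
  simp only [Finset.mem_filter]

open Classical in
/-- the colourings with colours of `A` inside the classes -/
noncomputable def T {n p r : ℕ} (A : Finset (Fin r)) (κ : Fin n → Fin p) :
    Finset ((⊤ : SimpleGraph (Fin n)).edgeSet → Fin r) :=
  Fintype.piFinset (fun e => if (Sym2.map κ e.1).IsDiag then A else univ)

theorem card_E (n : ℕ) : Fintype.card (⊤ : SimpleGraph (Fin n)).edgeSet = n.choose 2 := by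
  classical
  rw [← SimpleGraph.edgeFinset_card, SimpleGraph.card_edgeFinset_top_eq_card_choose_two,
    Fintype.card_fin]

open Classical in
theorem card_T {n p r : ℕ} (A : Finset (Fin r)) (κ : Fin n → Fin p) :
    (T A κ).card = A.card ^ nSame κ * r ^ (n.choose 2 - nSame κ) := by
  unfold T
  rw [cardPi (fun e : (⊤ : SimpleGraph (Fin n)).edgeSet => (Sym2.map κ e.1).IsDiag) A, nSame_def κ]
  congr 2
  have h := Finset.card_filter_add_card_filter_not (s := (univ : Finset (⊤ : SimpleGraph (Fin n)).edgeSet))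
    (fun e : (⊤ : SimpleGraph (Fin n)).edgeSet => (Sym2.map κ e.1).IsDiag)
  rw [Finset.card_univ, card_E] at h
  omega

theorem mem_T {n p r : ℕ} {A : Finset (Fin r)} {κ : Fin n → Fin p}
    {ψ : (⊤ : SimpleGraph (Fin n)).edgeSet → Fin r} :
    ψ ∈ T A κ ↔ ∀ e : (⊤ : SimpleGraph (Fin n)).edgeSet, (Sym2.map κ e.1).IsDiag → ψ e ∈ A := by
  classical
  unfold T
  rw [Fintype.mem_piFinset]
  constructor
  · intro h e he
    have := h e
    rwa [if_pos he] at this
  · intro h e
    split_ifs with he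
    · exact h e he
    · exact Finset.mem_univ _

open Classical in
/-- the colourings for which all pairs from `v` to the reference set `R` have colours in `A` -/
noncomputable def Bad {n p r : ℕ} (A : Finset (Fin r)) (κ : Fin n → Fin p) (R : Finset (Fin n))
    (v : Fin n) : Finset ((⊤ : SimpleGraph (Fin n)).edgeSet → Fin r) :=
  (T A κ).filter (fun ψ => ∀ u ∈ R, ∀ e : (⊤ : SimpleGraph (Fin n)).edgeSet,
    e.1 = s(u, v) → ψ e ∈ A)

open Classical in
theorem card_Bad {n p r : ℕ} (hr : 0 < r) (A : Finset (Fin r)) (κ : Fin n → Fin p)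
    (R : Finset (Fin n)) (v : Fin n) (j : Fin p) (hR : ∀ u ∈ R, κ u = j) (hv : κ v ≠ j) :
    ((Bad A κ R v).card : ℝ) ≤ ((T A κ).card : ℝ) * ((A.card : ℝ) / r) ^ R.card := by
  set q1 : (⊤ : SimpleGraph (Fin n)).edgeSet → Prop := fun e => (Sym2.map κ e.1).IsDiag with hq1
  set q2 : (⊤ : SimpleGraph (Fin n)).edgeSet → Prop := fun e => ∃ u ∈ R, e.1 = s(u, v) with hq2
  have hsub : Bad A κ R v ⊆ Fintype.piFinset (fun e => if q1 e ∨ q2 e then A else univ) := by
    intro ψ hψ
    unfold Bad at hψ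
    rw [Finset.mem_filter, mem_T] at hψ
    rw [Fintype.mem_piFinset]
    intro e
    split_ifs with he
    · rcases he with he | ⟨u, hu, he⟩
      · exact hψ.1 e he
      · exact hψ.2 u hu e he
    · exact Finset.mem_univ _
  have hne : ∀ u ∈ R, u ≠ v := by
    intro u hu h
    subst h
    exact hv (hR u hu)
  have h12 : ∀ e, q2 e → ¬ q1 e := by
    rintro e ⟨u, hu, he⟩ h
    have h' : (Sym2.map κ e.1).IsDiag := h
    rw [he, Sym2.map_mk, Sym2.mk_isDiag_iff, hR u hu] at h'
    exact hv h'.symm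
  have hcard2 : (univ.filter q2).card = R.card := by
    symm
    refine Finset.card_bij (fun u hu => ⟨s(u, v), by
      rw [SimpleGraph.mem_edgeSet, SimpleGraph.top_adj]; exact hne u hu⟩) ?_ ?_ ?_
    · intro u hu
      rw [Finset.mem_filter]
      exact ⟨Finset.mem_univ _, u, hu, rfl⟩
    · intro u hu u' hu' h
      have h' := congrArg Subtype.val h
      simp only at h'
      rw [Sym2.eq_iff] at h'
      rcases h' with ⟨h1, _⟩ | ⟨h1, h2⟩
      · exact h1
      · exact absurd h1 (hne u hu)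
    · rintro ⟨z, hz⟩ he
      rw [Finset.mem_filter] at he
      obtain ⟨_, u, hu, he⟩ := he
      exact ⟨u, hu, Subtype.ext he.symm⟩
  have hor : (univ.filter (fun e => q1 e ∨ q2 e)).card = (univ.filter q1).card + R.card := by
    rw [Finset.filter_or, Finset.card_union_of_disjoint, hcard2]
    rw [Finset.disjoint_left]
    intro e h1 h2
    rw [Finset.mem_filter] at h1 h2
    exact h12 e h2.2 h1.2
  have hnot : (univ.filter (fun e => ¬ (q1 e ∨ q2 e))).card + R.card =
      (univ.filter (fun e => ¬ q1 e)).card := by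
    have e1 := Finset.card_filter_add_card_filter_not (s := (univ : Finset (⊤ : SimpleGraph (Fin n)).edgeSet))
      (fun e => q1 e ∨ q2 e)
    have e2 := Finset.card_filter_add_card_filter_not (s := (univ : Finset (⊤ : SimpleGraph (Fin n)).edgeSet))
      q1
    omega
  have h1 := Finset.card_le_card hsub
  rw [cardPi (fun e => q1 e ∨ q2 e) A, hor] at h1
  have h2 : (T A κ).card = A.card ^ (univ.filter q1).card * r ^ (univ.filter (fun e => ¬ q1 e)).card := by
    unfold T
    rw [cardPi q1 A]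
  have h3 : ((Bad A κ R v).card : ℝ) ≤ (A.card : ℝ) ^ ((univ.filter q1).card + R.card) *
      (r : ℝ) ^ (univ.filter (fun e => ¬ (q1 e ∨ q2 e))).card := by
    exact_mod_cast h1
  refine h3.trans (le_of_eq ?_)
  rw [h2, ← hnot]
  push_cast
  have hr' : (r : ℝ) ≠ 0 := by positivity
  rw [div_pow, pow_add, pow_add]
  field_simp

open Classical in
/-- the colourings from which the classes can be read off -/
noncomputable def S {n p r : ℕ} (A : Finset (Fin r)) (κ : Fin n → Fin p)
    (R : Fin p → Finset (Fin n)) : Finset ((⊤ : SimpleGraph (Fin n)).edgeSet → Fin r) :=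
  (T A κ).filter (fun ψ => ∀ v j, κ v ≠ j → ∃ u ∈ R j, ∃ e : (⊤ : SimpleGraph (Fin n)).edgeSet,
    e.1 = s(u, v) ∧ ψ e ∉ A)

theorem card_S {n p r t : ℕ} (hr : 0 < r) (A : Finset (Fin r)) (κ : Fin n → Fin p)
    (R : Fin p → Finset (Fin n)) (hR : ∀ j, ∀ u ∈ R j, κ u = j) (ht : ∀ j, (R j).card = t) :
    ((T A κ).card : ℝ) * (1 - n * p * ((A.card : ℝ) / r) ^ t) ≤ ((S A κ R).card : ℝ) := by
  classical
  have hsub : T A κ ⊆ S A κ R ∪ (univ : Finset (Fin n × Fin p)).biUnion
      (fun x => if κ x.1 ≠ x.2 then Bad A κ (R x.2) x.1 else ∅) := by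
    intro ψ hψ
    rw [Finset.mem_union]
    by_cases h : ψ ∈ S A κ R
    · exact Or.inl h
    · right
      unfold S at h
      rw [Finset.mem_filter] at h
      push Not at h
      obtain ⟨v, j, hvj, h⟩ := h hψ
      rw [Finset.mem_biUnion]
      refine ⟨(v, j), Finset.mem_univ _, ?_⟩
      rw [if_pos hvj]
      unfold Bad
      rw [Finset.mem_filter]
      exact ⟨hψ, fun u hu e he => h u hu e he⟩
  have h1 := Finset.card_le_card hsub
  have h2 := h1.trans (Finset.card_union_le _ _)
  have h3 : ((univ : Finset (Fin n × Fin p)).biUnion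
      (fun x => if κ x.1 ≠ x.2 then Bad A κ (R x.2) x.1 else ∅)).card ≤
      ∑ x : Fin n × Fin p, (if κ x.1 ≠ x.2 then Bad A κ (R x.2) x.1 else ∅).card :=
    Finset.card_biUnion_le
  have h4 : ∀ x : Fin n × Fin p, (((if κ x.1 ≠ x.2 then Bad A κ (R x.2) x.1 else ∅).card : ℕ) : ℝ) ≤
      ((T A κ).card : ℝ) * ((A.card : ℝ) / r) ^ t := by
    intro x
    split_ifs with hx
    · rw [← ht x.2]
      exact card_Bad hr A κ (R x.2) x.1 x.2 (hR x.2) hx
    · rw [Finset.card_empty, Nat.cast_zero]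
      positivity
  have h5 : ((T A κ).card : ℝ) ≤ ((S A κ R).card : ℝ) +
      ∑ x : Fin n × Fin p, (((if κ x.1 ≠ x.2 then Bad A κ (R x.2) x.1 else ∅).card : ℕ) : ℝ) := by
    have := h2.trans (Nat.add_le_add_left h3 _)
    exact_mod_cast this
  have h6 : ∑ x : Fin n × Fin p, (((if κ x.1 ≠ x.2 then Bad A κ (R x.2) x.1 else ∅).card : ℕ) : ℝ) ≤
      n * p * (((T A κ).card : ℝ) * ((A.card : ℝ) / r) ^ t) := by
    refine (Finset.sum_le_sum fun x _ => h4 x).trans (le_of_eq ?_)
    rw [Finset.sum_const, Finset.card_univ, Fintype.card_prod, Fintype.card_fin, Fintype.card_fin,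
      nsmul_eq_mul]
    push_cast
    ring
  nlinarith [h5, h6]

/-- the union over many class structures -/
theorem core {n k D p c r t : ℕ} (hk : D ≤ k.choose 2) (hpc : p + c + D = k)
    (hr : 0 < r) (A : Finset (Fin r)) (hA : A.card = c) {ι : Type} [Fintype ι]
    (κ : ι → Fin n → Fin p) (R : Fin p → Finset (Fin n)) (hR : ∀ s j, ∀ u ∈ R j, κ s u = j)
    (ht : ∀ j, (R j).card = t) (hκ : ∀ s s', s ≠ s' → ∃ v, κ s v ≠ κ s' v) :
    (∑ s : ι, ((c : ℝ) ^ nSame (κ s) * (r : ℝ) ^ (n.choose 2 - nSame (κ s)))) *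
      (1 - n * p * ((c : ℝ) / r) ^ t) ≤
      (F r k (k.choose 2 + 1 - D) (⊤ : SimpleGraph (Fin n)) : ℝ) := by
  classical
  have hdisj : ∀ s ∈ (univ : Finset ι), ∀ s' ∈ (univ : Finset ι), s ≠ s' →
      Disjoint (S A (κ s) R) (S A (κ s') R) := by
    intro s _ s' _ hss
    rw [Finset.disjoint_left]
    intro ψ h1 h2
    obtain ⟨v, hv⟩ := hκ s s' hss
    unfold S at h1 h2
    rw [Finset.mem_filter, mem_T] at h1 h2
    obtain ⟨u, hu, e, he, hne⟩ := h1.2 v (κ s' v) hv
    refine hne (h2.1 e ?_)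
    rw [he, Sym2.map_mk, Sym2.mk_isDiag_iff]
    exact hR s' _ u hu
  have hF : ((univ : Finset ι).biUnion (fun s => S A (κ s) R)).card ≤
      F r k (k.choose 2 + 1 - D) (⊤ : SimpleGraph (Fin n)) := by
    unfold F
    rw [Nat.card_eq_fintype_card, Fintype.card_subtype]
    refine Finset.card_le_card ?_
    intro ψ hψ
    rw [Finset.mem_biUnion] at hψ
    obtain ⟨s, _, hψ⟩ := hψ
    unfold S at hψ
    rw [Finset.mem_filter, mem_T] at hψ
    rw [Finset.mem_filter]
    exact ⟨Finset.mem_univ _, good_of_same k D p c r hk hpc hr A hA (κ s) ψ hψ.1⟩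
  rw [Finset.card_biUnion hdisj] at hF
  have hF' : (∑ s : ι, ((S A (κ s) R).card : ℝ)) ≤
      (F r k (k.choose 2 + 1 - D) (⊤ : SimpleGraph (Fin n)) : ℝ) := by exact_mod_cast hF
  refine le_trans ?_ hF'
  rw [Finset.sum_mul]
  refine Finset.sum_le_sum fun s _ => ?_
  have h := card_S hr A (κ s) R (hR s) ht
  rw [card_T A (κ s), hA] at h
  push_cast at h
  exact h

end Pool.Agent.TH405.J653
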