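import Pool.Agent.TH405.J653B
set_option autoImplicit false
open Finset Pool.Agent.TH477.PA

namespace Pool.Agent.TH405.J653

open Classical in
theorem nSame_eq {n p : ℕ} (κ : Fin n → Fin p) :
    nSame κ = ∑ i : Fin p, ((univ.filter (fun v => κ v = i)).card).choose 2 := by
  have hdisj : ∀ i ∈ (univ : Finset (Fin p)), ∀ j ∈ (univ : Finset (Fin p)), i ≠ j →
      Disjoint ((((univ : Finset (Fin n)).filter (fun v => κ v = i)).offDiag).image (Function.uncurry Sym2.mk))
        ((((univ : Finset (Fin n)).filter (fun v => κ v = j)).offDiag).image (Function.uncurry Sym2.mk)) := by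
    intro i _ j _ hij
    rw [Finset.disjoint_left]
    intro z hz hz'
    rw [Finset.mem_image] at hz hz'
    obtain ⟨⟨x, y⟩, hxy, rfl⟩ := hz
    obtain ⟨⟨x', y'⟩, hxy', he⟩ := hz'
    rw [Finset.mem_offDiag, Finset.mem_filter, Finset.mem_filter] at hxy hxy'
    simp only at hxy hxy'
    rw [Function.uncurry_apply_pair, Function.uncurry_apply_pair, Sym2.eq_iff] at he
    rcases he with ⟨h1, h2⟩ | ⟨h1, h2⟩
    · subst h1; exact hij (hxy.1.2.symm.trans hxy'.1.2)
    · subst h1; exact hij (hxy.2.1.2.symm.trans hxy'.1.2)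
  rw [nSame_def κ, ← Finset.card_image_of_injective _ Subtype.val_injective]
  have he : (univ.filter (fun e : (⊤ : SimpleGraph (Fin n)).edgeSet =>
      (Sym2.map κ e.1).IsDiag)).image Subtype.val =
      (univ : Finset (Fin p)).biUnion (fun i =>
        (((univ : Finset (Fin n)).filter (fun v => κ v = i)).offDiag).image (Function.uncurry Sym2.mk)) := by
    ext z
    rw [Finset.mem_image, Finset.mem_biUnion]
    constructor
    · rintro ⟨⟨z', hz'⟩, hz, rfl⟩
      rw [Finset.mem_filter] at hz
      have hz2 := hz.2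
      simp only at hz2 ⊢
      induction z' using Sym2.ind with
      | _ x y =>
        rw [Sym2.map_mk, Sym2.mk_isDiag_iff] at hz2
        rw [SimpleGraph.mem_edgeSet] at hz'
        refine ⟨κ x, Finset.mem_univ _, ?_⟩
        rw [Finset.mem_image]
        refine ⟨(x, y), ?_, rfl⟩
        rw [Finset.mem_offDiag, Finset.mem_filter, Finset.mem_filter]
        exact ⟨⟨Finset.mem_univ _, rfl⟩, ⟨Finset.mem_univ _, hz2.symm⟩, hz'.ne⟩
    · rintro ⟨i, _, hz⟩
      rw [Finset.mem_image] at hz
      obtain ⟨⟨x, y⟩, hxy, rfl⟩ := hz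
      rw [Finset.mem_offDiag, Finset.mem_filter, Finset.mem_filter] at hxy
      simp only at hxy
      refine ⟨⟨s(x, y), ?_⟩, ?_, rfl⟩
      · rw [SimpleGraph.mem_edgeSet, SimpleGraph.top_adj]; exact hxy.2.2
      · rw [Finset.mem_filter]
        refine ⟨Finset.mem_univ _, ?_⟩
        rw [Sym2.map_mk, Sym2.mk_isDiag_iff]
        exact hxy.1.2.trans hxy.2.1.2.symm
  rw [he, Finset.card_biUnion hdisj]
  refine Finset.sum_congr rfl fun i _ => ?_
  rw [Sym2.card_image_offDiag]

open Classical in
/-- number of same-class edges of a balanced partition -/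
theorem nSame_le {n p B : ℕ} (hp : 0 < p) (κ : Fin n → Fin p)
    (h1 : ∀ i : Fin p, B ≤ (univ.filter (fun v => κ v = i)).card)
    (h2 : ∀ i : Fin p, (univ.filter (fun v => κ v = i)).card ≤ B + 1) :
    (nSame κ : ℝ) ≤ (n : ℝ) ^ 2 / (2 * p) - n / 2 + p / 8 := by
  have hsum : (n : ℝ) = ∑ i : Fin p, ((univ.filter (fun v => κ v = i)).card : ℝ) := by
    have : (univ : Finset (Fin n)).card = ∑ i : Fin p, (univ.filter (fun v => κ v = i)).card :=
      Finset.card_eq_sum_card_fiberwise (fun _ _ => Finset.mem_univ _)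
    rw [Finset.card_univ, Fintype.card_fin] at this
    exact_mod_cast this
  have hi : ∀ i : Fin p, ((((univ.filter (fun v => κ v = i)).card).choose 2 : ℕ) : ℝ) =
      B * ((univ.filter (fun v => κ v = i)).card : ℝ) - B * (B + 1) / 2 := by
    intro i
    have ha := h1 i
    have hb := h2 i
    rw [Nat.cast_choose_two]
    have hc : (univ.filter (fun v => κ v = i)).card = B ∨
        (univ.filter (fun v => κ v = i)).card = B + 1 := by omega
    rcases hc with hc | hc
    · rw [hc]; ring
    · rw [hc]; push_cast; ring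
  have hN : (nSame κ : ℝ) = B * n - p * (B * (B + 1) / 2) := by
    rw [nSame_eq κ]
    push_cast
    rw [Finset.sum_congr rfl (fun i _ => hi i), Finset.sum_sub_distrib, ← Finset.mul_sum, ← hsum,
      Finset.sum_const, Finset.card_univ, Fintype.card_fin, nsmul_eq_mul]
  rw [hN]
  have hp' : (0 : ℝ) < p := by exact_mod_cast hp
  have key : (n : ℝ) ^ 2 / (2 * p) - n / 2 + p / 8 - (B * n - p * (B * (B + 1) / 2)) =
      ((n : ℝ) - p * B - p / 2) ^ 2 / (2 * p) := by
    field_simp
    ring
  have : (0 : ℝ) ≤ ((n : ℝ) - p * B - p / 2) ^ 2 / (2 * p) := by positivity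
  linarith

/-- the permutation of block `b` -/
noncomputable def pm {p t M : ℕ} (σ : Fin M → Equiv.Perm (Fin p)) (b : ℕ) : Equiv.Perm (Fin p) :=
  if h : t ≤ b ∧ b < t + M then σ ⟨b - t, by omega⟩ else 1

/-- the class map -/
noncomputable def kap {n p : ℕ} (hp : 0 < p) (t M : ℕ) (σ : Fin M → Equiv.Perm (Fin p))
    (v : Fin n) : Fin p := pm (t := t) σ (v.val / p) ⟨v.val % p, Nat.mod_lt _ hp⟩

open Classical in
theorem kap_le {n p : ℕ} (hp : 0 < p) (t M : ℕ) (σ : Fin M → Equiv.Perm (Fin p)) (i : Fin p) :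
    ((univ : Finset (Fin n)).filter (fun v => kap hp t M σ v = i)).card ≤ n / p + 1 := by
  rw [← Finset.card_range (n / p + 1)]
  refine Finset.card_le_card_of_injOn (fun v => v.val / p) ?_ ?_
  · intro v _
    rw [Finset.coe_range, Set.mem_Iio]
    exact Nat.lt_succ_of_le (Nat.div_le_div_right v.2.le)
  · intro v hv w hw hvw
    rw [Finset.mem_coe, Finset.mem_filter] at hv hw
    simp only at hvw
    have h := hv.2.trans hw.2.symm
    unfold kap at h
    rw [hvw] at h
    have h2 := (pm (t := t) σ (w.val / p)).injective h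
    have h3 : v.val % p = w.val % p := congrArg Fin.val h2
    apply Fin.ext
    rw [← Nat.div_add_mod v.val p, ← Nat.div_add_mod w.val p, hvw, h3]

open Classical in
theorem le_kap {n p : ℕ} (hp : 0 < p) (t M : ℕ) (σ : Fin M → Equiv.Perm (Fin p)) (i : Fin p) :
    n / p ≤ ((univ : Finset (Fin n)).filter (fun v => kap hp t M σ v = i)).card := by
  have hlt : ∀ b : ℕ, b < n / p → ∀ a : Fin p, p * b + a.val < n := by
    intro b hb a
    have h1 : p * (b + 1) ≤ p * (n / p) := Nat.mul_le_mul_left p hb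
    have h2 : p * (n / p) ≤ n := Nat.mul_div_le n p
    have h3 := a.2
    have h4 : p * (b + 1) = p * b + p := by ring
    omega
  have h0 : ((univ : Finset (Fin (n / p)))).card = n / p := by
    rw [Finset.card_univ, Fintype.card_fin]
  conv_lhs => rw [← h0]
  refine Finset.card_le_card_of_injOn
    (fun b => ⟨p * b.val + ((pm (t := t) σ b.val).symm i).val, hlt b.val b.2 _⟩) ?_ ?_
  · intro b _
    rw [Finset.mem_coe, Finset.mem_filter]
    refine ⟨Finset.mem_univ _, ?_⟩
    unfold kap
    have h1 : (p * b.val + ((pm (t := t) σ b.val).symm i).val) / p = b.val := by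
      rw [Nat.mul_add_div hp, Nat.div_eq_of_lt ((pm (t := t) σ b.val).symm i).2, add_zero]
    have h2 : (p * b.val + ((pm (t := t) σ b.val).symm i).val) % p =
        ((pm (t := t) σ b.val).symm i).val := by
      rw [Nat.mul_add_mod, Nat.mod_eq_of_lt ((pm (t := t) σ b.val).symm i).2]
    simp only [h1, h2]
    exact (pm (t := t) σ b.val).apply_symm_apply i
  · intro b _ b' _ h
    have h' := congrArg Fin.val h
    simp only at h'
    have h1 : (p * b.val + ((pm (t := t) σ b.val).symm i).val) / p = b.val := by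
      rw [Nat.mul_add_div hp, Nat.div_eq_of_lt ((pm (t := t) σ b.val).symm i).2, add_zero]
    have h2 : (p * b'.val + ((pm (t := t) σ b'.val).symm i).val) / p = b'.val := by
      rw [Nat.mul_add_div hp, Nat.div_eq_of_lt ((pm (t := t) σ b'.val).symm i).2, add_zero]
    apply Fin.ext
    rw [← h1, ← h2, h']

open Classical in
/-- the reference vertices of class `j` -/
noncomputable def Rf {n p : ℕ} (t : ℕ) (j : Fin p) : Finset (Fin n) :=
  univ.filter (fun v : Fin n => v.val / p < t ∧ v.val % p = j.val)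

theorem Rf_card {n p : ℕ} (hp : 0 < p) (t : ℕ) (ht : t ≤ n / p) (j : Fin p) :
    (Rf (n := n) t j).card = t := by
  classical
  have hlt : ∀ b : Fin t, p * b.val + j.val < n := by
    intro b
    have h1 : p * (b.val + 1) ≤ p * (n / p) := Nat.mul_le_mul_left p (lt_of_lt_of_le b.2 ht)
    have h2 : p * (n / p) ≤ n := Nat.mul_div_le n p
    have h3 := j.2
    have h4 : p * (b.val + 1) = p * b.val + p := by ring
    omega
  have h0 : ((univ : Finset (Fin t))).card = t := by
    rw [Finset.card_univ, Fintype.card_fin]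
  conv_rhs => rw [← h0]
  symm
  refine Finset.card_bij (fun b _ => ⟨p * b.val + j.val, hlt b⟩) ?_ ?_ ?_
  · intro b _
    unfold Rf
    rw [Finset.mem_filter]
    refine ⟨Finset.mem_univ _, ?_, ?_⟩
    · simp only
      rw [Nat.mul_add_div hp, Nat.div_eq_of_lt j.2, add_zero]
      exact b.2
    · simp only
      rw [Nat.mul_add_mod, Nat.mod_eq_of_lt j.2]
  · intro b _ b' _ h
    have h' := congrArg Fin.val h
    simp only at h'
    apply Fin.ext
    have h5 : p * b.val = p * b'.val := by omega
    exact Nat.eq_of_mul_eq_mul_left hp h5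
  · intro v hv
    unfold Rf at hv
    rw [Finset.mem_filter] at hv
    refine ⟨⟨v.val / p, hv.2.1⟩, Finset.mem_univ _, ?_⟩
    apply Fin.ext
    simp only
    rw [← hv.2.2]
    exact Nat.div_add_mod v.val p

theorem kap_Rf {n p : ℕ} (hp : 0 < p) (t M : ℕ) (σ : Fin M → Equiv.Perm (Fin p)) (j : Fin p)
    (u : Fin n) (hu : u ∈ Rf t j) : kap hp t M σ u = j := by
  classical
  unfold Rf at hu
  rw [Finset.mem_filter] at hu
  unfold kap pm
  rw [dif_neg (by omega)]
  apply Fin.ext
  simp only [Equiv.Perm.coe_one, id]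
  exact hu.2.2

theorem kap_ne {n p : ℕ} (hp : 0 < p) (t M : ℕ) (htM : t + M ≤ n / p)
    (σ σ' : Fin M → Equiv.Perm (Fin p)) (h : σ ≠ σ') :
    ∃ v : Fin n, kap hp t M σ v ≠ kap hp t M σ' v := by
  obtain ⟨m, hm⟩ := Function.ne_iff.mp h
  obtain ⟨i, hi⟩ : ∃ i, σ m i ≠ σ' m i := by
    by_contra hcon
    push Not at hcon
    exact hm (Equiv.ext hcon)
  have hlt : p * (t + m.val) + i.val < n := by
    have h1 : p * (t + m.val + 1) ≤ p * (n / p) :=
      Nat.mul_le_mul_left p (by have := m.2; omega)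
    have h2 : p * (n / p) ≤ n := Nat.mul_div_le n p
    have h3 := i.2
    have h4 : p * (t + m.val + 1) = p * (t + m.val) + p := by ring
    omega
  refine ⟨⟨p * (t + m.val) + i.val, hlt⟩, ?_⟩
  have h1 : (p * (t + m.val) + i.val) / p = t + m.val := by
    rw [Nat.mul_add_div hp, Nat.div_eq_of_lt i.2, add_zero]
  have h2 : (p * (t + m.val) + i.val) % p = i.val := by
    rw [Nat.mul_add_mod, Nat.mod_eq_of_lt i.2]
  have hb : t ≤ t + m.val ∧ t + m.val < t + M := ⟨by omega, by have := m.2; omega⟩
  have h3 : ∀ τ : Fin M → Equiv.Perm (Fin p),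
      kap hp t M τ ⟨p * (t + m.val) + i.val, hlt⟩ = τ m i := by
    intro τ
    unfold kap
    simp only [h1, h2]
    unfold pm
    rw [dif_pos hb]
    congr 2
    apply Fin.ext
    simp only
    omega
  rw [h3 σ, h3 σ']
  exact hi

end Pool.Agent.TH405.J653
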